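import Mathlib
import Pool.Graph.R_seed8.Helper186.LMain

/-! Gluing: an equivalence of germs extends to an equivalence. The proof of `equivRel` follows the
one of `Pool.Graph.R_seed8.Helper186.Germ3` (`GermData.equiv`), keeping track of the values near the
core. -/

open scoped Topology ContDiff Manifold
open Set Metric Bundle

noncomputable section

namespace Pool.Agent.Helper186

set_option linter.unusedSectionVars false

universe u

variable {E : Type u} [NormedAddCommGroup E] [NormedSpace ℝ E] [FiniteDimensional ℝ E]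
  {H : Type*} [TopologicalSpace H] {I : ModelWithCorners ℝ E H} [I.Boundaryless]
  {X : Type*} [TopologicalSpace X] [ChartedSpace H X] [IsManifold I ∞ X]
  {E' : Type*} [NormedAddCommGroup E'] [NormedSpace ℝ E'] [FiniteDimensional ℝ E']
  {H' : Type*} [TopologicalSpace H'] {J : ModelWithCorners ℝ E' H'} [J.Boundaryless]
  {N : Type*} [TopologicalSpace N] [ChartedSpace H' N] [IsManifold J ∞ N]

namespace GermData

variable {lam : (x : X) → TangentSpace I x →L[ℝ] ℝ} {β : (x : N) → TangentSpace J x →L[ℝ] ℝ}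
  (𝒟 : GermData I J lam β)

include 𝒟 in
theorem equivRel [T2Space X] [SigmaCompactSpace X] (hlam : SmoothForm lam)
    (hnd : ∀ (x : X) (u : TangentSpace I x), (∀ v, extDer I lam x u v = 0) → u = 0) :
    ∃ (Φ : Diffeomorph I J X N ∞) (f : X → ℝ), ContMDiff I 𝓘(ℝ, ℝ) ∞ f ∧
      (∀ x, PB lam β Φ 1 f x) ∧ ∀ x ∈ 𝒟.W, Φ x = 𝒟.w' x ∧ f x = - 𝒟.g x := by
  obtain ⟨ψ, ψi, κ, hψ, hψi, hψiψ, hψψi, hκ, hψpb, hψid, hψw, hκw⟩ := 𝒟.exists_psi hlam hnd
  have hT := 𝒟.T_pos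
  set T := 𝒟.T with hTdef
  -- the modified contraction
  set η : X → X := fun x => ψ (𝒟.F.φ (-T) x) with hη
  set ηi : X → X := fun x => 𝒟.F.φ T (ψi x) with hηi
  set kt : X → ℝ := fun x => κ (𝒟.F.φ (-T) x) with hkt
  have hηs : ContMDiff I I ∞ η := hψ.comp (𝒟.F.smooth_slice _)
  have hηis : ContMDiff I I ∞ ηi := (𝒟.F.smooth_slice _).comp hψi
  have hkts : ContMDiff I 𝓘(ℝ, ℝ) ∞ kt := hκ.comp (𝒟.F.smooth_slice _)
  have hηiη : ∀ x, ηi (η x) = x := by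
    intro x
    simp only [hηi, hη, hψiψ]
    exact 𝒟.F.neg_right T x
  have hηηi : ∀ x, η (ηi x) = x := by
    intro x
    simp only [hηi, hη]
    rw [𝒟.F.neg_left, hψψi]
  have hηpb : ∀ x, PB lam lam η (Real.exp (-T)) kt x := by
    intro x u
    have h1 := PB.comp (hψpb (𝒟.F.φ (-T) x)) (𝒟.F.pb (-T) x) (𝒟.F.mdiff _ _)
      (hψ.mdifferentiableAt (by simp)) mdifferentiableAt_const (hκ.mdifferentiableAt (by simp))
    have h2 := h1.congr (f' := η) (k' := kt) (Filter.Eventually.of_forall fun y => rfl)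
      (Filter.Eventually.of_forall fun y => by simp only [hkt]; ring) u
    rw [h2, one_mul]
  have hηw : ∀ x ∈ 𝒟.WQ, η x = 𝒟.w (𝒟.G.φ (-T) (𝒟.w' x)) := hψw
  have hktw : ∀ x ∈ 𝒟.WQ, kt x = 𝒟.g (η x) - Real.exp (-T) * 𝒟.g x := by
    intro x hx
    rw [hηw x hx]
    exact hκw x hx
  have hηW : ∀ x ∈ 𝒟.WQ, η x ∈ 𝒟.W := by
    intro x hx
    rw [hηw x hx]
    exact 𝒟.w_G_mem _ hx.2
  -- `ψ` preserves `WQ`
  have hψWQ : ∀ x ∈ 𝒟.WQ, ψ x ∈ 𝒟.WQ := by
    intro x hx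
    by_contra h
    have h1 := hψid _ h
    have h2 : ψ x = x := by
      have h3 := congrArg ψi h1
      rwa [hψiψ, hψiψ] at h3
    rw [h2] at h
    exact h hx
  -- iterates of `η` are absorbed in `W`
  have habs : ∀ x, ∃ n : ℕ, η^[n] x ∈ 𝒟.W := by
    intro x
    have h1 : ∀ n : ℕ, η^[n] x = 𝒟.F.φ (-(n * T)) x ∨ ∃ n' : ℕ, η^[n'] x ∈ 𝒟.WQ := by
      intro n
      induction n with
      | zero => left; simp [𝒟.F.zero]
      | succ n ih =>
        rcases ih with h | h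
        · have h2 : η^[n + 1] x = ψ (𝒟.F.φ (-((n + 1 : ℕ) * T)) x) := by
            rw [Function.iterate_succ_apply', h]
            simp only [hη]
            rw [← 𝒟.F.add]
            congr 2
            push_cast
            ring
          by_cases h3 : 𝒟.F.φ (-((n + 1 : ℕ) * T)) x ∈ 𝒟.WQ
          · right
            refine ⟨n + 1, ?_⟩
            rw [h2]
            exact hψWQ _ h3
          · left
            rw [h2, hψid _ h3]
        · exact Or.inr h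
    obtain ⟨t₀, ht₀⟩ := 𝒟.absorb x
    obtain ⟨n, hn⟩ := exists_nat_gt (t₀ / T)
    have h2 : t₀ ≤ n * T := by
      rw [div_lt_iff₀ hT] at hn
      exact hn.le
    rcases h1 n with h | ⟨n', h⟩
    · refine ⟨n, ?_⟩
      rw [h]
      exact ht₀ _ h2
    · refine ⟨n' + 1, ?_⟩
      rw [Function.iterate_succ_apply']
      exact hηW _ h
  -- primitives of the iterates
  let kn : ℕ → X → ℝ := fun n => Nat.rec (fun _ => 0)
    (fun n k x => Real.exp (-T) * k x + kt (η^[n] x)) n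
  have kn_succ : ∀ n x, kn (n + 1) x = Real.exp (-T) * kn n x + kt (η^[n] x) := fun n x => rfl
  have hηn : ∀ n : ℕ, ContMDiff I I ∞ (η^[n]) := by
    intro n
    induction n with
    | zero => exact contMDiff_id
    | succ n ih =>
      rw [Function.iterate_succ']
      exact hηs.comp ih
  have hηin : ∀ n : ℕ, ContMDiff I I ∞ (ηi^[n]) := by
    intro n
    induction n with
    | zero => exact contMDiff_id
    | succ n ih =>
      rw [Function.iterate_succ']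
      exact hηis.comp ih
  have hkn : ∀ n : ℕ, ContMDiff I 𝓘(ℝ, ℝ) ∞ (kn n) := by
    intro n
    induction n with
    | zero => exact contMDiff_const
    | succ n ih => exact (contMDiff_const.mul ih).add (hkts.comp (hηn n))
  have hpbn : ∀ (n : ℕ) (x : X), PB lam lam (η^[n]) (Real.exp (-(n * T))) (kn n) x := by
    intro n
    induction n with
    | zero =>
      intro x u
      have h1 : η^[0] = id := rfl
      have h2 : kn 0 = fun _ => 0 := rfl
      have h3 : mfderiv I 𝓘(ℝ, ℝ) (fun _ : X => (0:ℝ)) x = 0 := mfderiv_const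
      have h4 : (show ℝ from mfderiv I 𝓘(ℝ, ℝ) (fun _ : X => (0:ℝ)) x u) = 0 :=
        DFunLike.congr_fun h3 u
      rw [h2, h4]
      have h5 : lam (η^[0] x) (mfderiv I I (η^[0]) x u) = lam x u := by
        have h6 : tangentMap I I (η^[0]) (⟨x, u⟩ : TangentBundle I X) = ⟨x, u⟩ := by
          rw [h1, tangentMap_id]; rfl
        exact form_congr lam h6
      rw [h5]
      simp
    | succ n ih =>
      intro x u
      have h1 := PB.comp (hηpb (η^[n] x)) (ih x) ((hηn n).mdifferentiableAt (by simp))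
        (hηs.mdifferentiableAt (by simp)) ((hkn n).mdifferentiableAt (by simp))
        (hkts.mdifferentiableAt (by simp))
      have h2 := h1.congr (f' := η^[n+1]) (k' := kn (n + 1))
        (Filter.Eventually.of_forall fun y => Function.iterate_succ_apply' η n y)
        (Filter.Eventually.of_forall fun y => rfl) u
      rw [h2, ← Real.exp_add]
      congr 3
      push_cast
      ring
  -- the pieces of the diffeomorphism
  let Fn : ℕ → X → N := fun n x => 𝒟.G.φ (n * T) (𝒟.w' (η^[n] x))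
  let fn : ℕ → X → ℝ := fun n x => Real.exp (n * T) * (kn n x - 𝒟.g (η^[n] x))
  let Xn : ℕ → Set X := fun n => η^[n] ⁻¹' 𝒟.W
  have hXn : ∀ n, IsOpen (Xn n) := fun n => 𝒟.W_open.preimage (hηn n).continuous
  have hstep : ∀ n, ∀ x ∈ Xn n, x ∈ Xn (n + 1) ∧ Fn (n + 1) x = Fn n x ∧
      fn (n + 1) x = fn n x := by
    intro n x hx
    have hx' : η^[n] x ∈ 𝒟.W := hx
    have h1 : η^[n + 1] x = η (η^[n] x) := Function.iterate_succ_apply' η n x
    have h2 : η^[n + 1] x ∈ 𝒟.W := by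
      rw [h1]
      exact hηW _ (𝒟.W_sub_WQ hx')
    refine ⟨h2, ?_, ?_⟩
    · show 𝒟.G.φ ((n + 1 : ℕ) * T) (𝒟.w' (η^[n + 1] x)) = 𝒟.G.φ (n * T) (𝒟.w' (η^[n] x))
      rw [h1, hηw _ (𝒟.W_sub_WQ hx'), 𝒟.w'_w, ← 𝒟.G.add]
      · congr 1
        push_cast
        ring
      · exact 𝒟.Q_sub (𝒟.Q_inv T hT.le (interior_subset hx'.2))
    · show Real.exp ((n + 1 : ℕ) * T) * (kn (n + 1) x - 𝒟.g (η^[n + 1] x)) =
        Real.exp (n * T) * (kn n x - 𝒟.g (η^[n] x))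
      rw [kn_succ, hktw _ (𝒟.W_sub_WQ hx'), ← h1]
      have h3 : Real.exp ((n + 1 : ℕ) * T) * Real.exp (-T) = Real.exp (n * T) := by
        rw [← Real.exp_add]
        congr 1
        push_cast
        ring
      rw [← h3]
      ring
  have hmono : ∀ n m, n ≤ m → ∀ x ∈ Xn n, x ∈ Xn m ∧ Fn m x = Fn n x ∧ fn m x = fn n x := by
    intro n m hnm x hx
    induction m, hnm using Nat.le_induction with
    | base => exact ⟨hx, rfl, rfl⟩
    | succ m _ ih =>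
      obtain ⟨h1, h2, h3⟩ := ih
      obtain ⟨h4, h5, h6⟩ := hstep m x h1
      exact ⟨h4, h5.trans h2, h6.trans h3⟩
  have hcons : ∀ n m, ∀ x, x ∈ Xn n → x ∈ Xn m → Fn m x = Fn n x ∧ fn m x = fn n x := by
    intro n m x hn hm
    rcases le_total n m with h | h
    · exact (hmono n m h x hn).2
    · have := (hmono m n h x hm).2
      exact ⟨this.1.symm, this.2.symm⟩
  choose nx hnx using habs
  let Ft : X → N := fun x => Fn (nx x) x
  let ft : X → ℝ := fun x => fn (nx x) x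
  have hFt : ∀ n, ∀ x ∈ Xn n, Ft x = Fn n x := fun n x hx => (hcons n (nx x) x hx (hnx x)).1
  have hft : ∀ n, ∀ x ∈ Xn n, ft x = fn n x := fun n x hx => (hcons n (nx x) x hx (hnx x)).2
  -- the pieces of the inverse
  let Gn : ℕ → N → X := fun n ξ => ηi^[n] (𝒟.w (𝒟.G.φ (-(n * T)) ξ))
  let Nn : ℕ → Set N := fun n => 𝒟.G.φ (-(n * T)) ⁻¹' interior 𝒟.Q
  have hNn : ∀ n, IsOpen (Nn n) := fun n => isOpen_interior.preimage (𝒟.G.continuous_slice _)
  have habs' : ∀ ξ, ∃ n : ℕ, ξ ∈ Nn n := by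
    intro ξ
    obtain ⟨t₀, ht₀⟩ := 𝒟.absorb' ξ
    obtain ⟨n, hn⟩ := exists_nat_gt (t₀ / T)
    have h2 : t₀ ≤ n * T := by
      rw [div_lt_iff₀ hT] at hn
      exact hn.le
    exact ⟨n, ht₀ _ h2⟩
  have hstep' : ∀ n, ∀ ξ ∈ Nn n, ξ ∈ Nn (n + 1) ∧ Gn (n + 1) ξ = Gn n ξ := by
    intro n ξ hξ
    have hξ' : 𝒟.G.φ (-(n * T)) ξ ∈ interior 𝒟.Q := hξ
    have h1 : 𝒟.G.φ (-((n + 1 : ℕ) * T)) ξ = 𝒟.G.φ (-T) (𝒟.G.φ (-(n * T)) ξ) := by
      rw [← 𝒟.G.add]
      congr 1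
      push_cast
      ring
    have hO := 𝒟.Q_sub (interior_subset hξ')
    have hWQ : 𝒟.w (𝒟.G.φ (-(n * T)) ξ) ∈ 𝒟.WQ := by
      refine ⟨𝒟.w_maps hO, ?_⟩
      rw [𝒟.w'_w _ hO]
      exact interior_subset hξ'
    refine ⟨?_, ?_⟩
    · show 𝒟.G.φ (-((n + 1 : ℕ) * T)) ξ ∈ interior 𝒟.Q
      rw [h1]
      exact 𝒟.Qint_inv T hT.le hξ'
    · show ηi^[n + 1] (𝒟.w (𝒟.G.φ (-((n + 1 : ℕ) * T)) ξ)) = ηi^[n] (𝒟.w (𝒟.G.φ (-(n * T)) ξ))
      rw [h1, Function.iterate_succ_apply]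
      congr 1
      have h2 := hηw _ hWQ
      rw [𝒟.w'_w _ hO] at h2
      rw [← h2, hηiη]
  have hmono' : ∀ n m, n ≤ m → ∀ ξ ∈ Nn n, ξ ∈ Nn m ∧ Gn m ξ = Gn n ξ := by
    intro n m hnm x hx
    induction m, hnm using Nat.le_induction with
    | base => exact ⟨hx, rfl⟩
    | succ m _ ih =>
      obtain ⟨h1, h2⟩ := ih
      obtain ⟨h4, h5⟩ := hstep' m x h1
      exact ⟨h4, h5.trans h2⟩
  have hcons' : ∀ n m, ∀ ξ, ξ ∈ Nn n → ξ ∈ Nn m → Gn m ξ = Gn n ξ := by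
    intro n m x hn hm
    rcases le_total n m with h | h
    · exact (hmono' n m h x hn).2
    · exact ((hmono' m n h x hm).2).symm
  choose nξ hnξ using habs'
  let Gt : N → X := fun ξ => Gn (nξ ξ) ξ
  have hGt : ∀ n, ∀ ξ ∈ Nn n, Gt ξ = Gn n ξ := fun n ξ hξ => hcons' n (nξ ξ) ξ hξ (hnξ ξ)
  -- iterates cancel
  have hcanc : ∀ (n : ℕ) x, η^[n] (ηi^[n] x) = x := fun n =>
    (Function.LeftInverse.iterate (g := η) (f := ηi) hηηi n)
  have hcanc' : ∀ (n : ℕ) x, ηi^[n] (η^[n] x) = x := fun n =>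
    (Function.LeftInverse.iterate (g := ηi) (f := η) hηiη n)
  have hFG : ∀ ξ, Ft (Gt ξ) = ξ := by
    intro ξ
    set n := nξ ξ with hn
    have hξ' : 𝒟.G.φ (-(n * T)) ξ ∈ interior 𝒟.Q := hnξ ξ
    have hO := 𝒟.Q_sub (interior_subset hξ')
    have h1 : η^[n] (Gt ξ) = 𝒟.w (𝒟.G.φ (-(n * T)) ξ) := hcanc n _
    have h2 : Gt ξ ∈ Xn n := by
      show η^[n] (Gt ξ) ∈ 𝒟.W
      rw [h1]
      refine ⟨𝒟.w_maps hO, ?_⟩
      rw [𝒟.w'_w _ hO]
      exact hξ'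
    rw [hFt n _ h2]
    show 𝒟.G.φ (n * T) (𝒟.w' (η^[n] (Gt ξ))) = ξ
    rw [h1, 𝒟.w'_w _ hO, 𝒟.G.neg_right]
  have hGF : ∀ x, Gt (Ft x) = x := by
    intro x
    set n := nx x with hn
    have hx' : η^[n] x ∈ 𝒟.W := hnx x
    have h1 : 𝒟.G.φ (-(n * T)) (Ft x) = 𝒟.w' (η^[n] x) := 𝒟.G.neg_left _ _
    have h2 : Ft x ∈ Nn n := by
      show 𝒟.G.φ (-(n * T)) (Ft x) ∈ interior 𝒟.Q
      rw [h1]
      exact hx'.2
    rw [hGt n _ h2]
    show ηi^[n] (𝒟.w (𝒟.G.φ (-(n * T)) (Ft x))) = x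
    rw [h1, 𝒟.w_w' _ hx'.1, hcanc']
  have hw's : ContMDiffOn I J ∞ 𝒟.w' 𝒟.W := 𝒟.w'_smooth.mono fun _ h => h.1
  have hFs : ContMDiff I J ∞ Ft := by
    refine contMDiff_of_locally hXn (fun x => ⟨nx x, hnx x⟩) (f := Fn) ?_ hFt
    intro n
    exact (𝒟.G.smooth_slice _).comp_contMDiffOn (hw's.comp (hηn n).contMDiffOn fun _ h => h)
  have hGs : ContMDiff J I ∞ Gt := by
    refine contMDiff_of_locally hNn (fun ξ => ⟨nξ ξ, hnξ ξ⟩) (f := Gn) ?_ hGt
    intro n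
    refine (hηin n).comp_contMDiffOn (𝒟.w_smooth.comp (𝒟.G.smooth_slice _).contMDiffOn ?_)
    intro ξ hξ
    exact 𝒟.Q_sub (interior_subset hξ)
  have hgs : ContMDiffOn I 𝓘(ℝ, ℝ) ∞ 𝒟.g 𝒟.W := 𝒟.g_smooth.mono fun _ h => h.1
  have hfs : ContMDiff I 𝓘(ℝ, ℝ) ∞ ft := by
    refine contMDiff_of_locally hXn (fun x => ⟨nx x, hnx x⟩) (f := fn) ?_ hft
    intro n
    exact contMDiffOn_const.mul ((hkn n).contMDiffOn.sub
      (hgs.comp (hηn n).contMDiffOn fun _ h => h))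
  refine ⟨⟨⟨Ft, Gt, hGF, hFG⟩, hFs, hGs⟩, ft, hfs, ?_, ?_⟩
  swap
  · intro x hx
    have hx0 : x ∈ Xn 0 := hx
    refine ⟨?_, ?_⟩
    · show Ft x = 𝒟.w' x
      rw [hFt 0 x hx0]
      show 𝒟.G.φ ((0 : ℕ) * T) (𝒟.w' x) = 𝒟.w' x
      rw [Nat.cast_zero, zero_mul, 𝒟.G.zero]
    · rw [hft 0 x hx0]
      show Real.exp ((0 : ℕ) * T) * (0 - 𝒟.g x) = - 𝒟.g x
      rw [Nat.cast_zero, zero_mul, Real.exp_zero, one_mul, zero_sub]
  -- the pull back formula
  intro x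
  show PB lam β Ft 1 ft x
  set n := nx x with hn
  have hx : x ∈ Xn n := hnx x
  have hxA : η^[n] x ∈ 𝒟.A := (hnx x).1
  have hgd : MDifferentiableAt I 𝓘(ℝ, ℝ) 𝒟.g (η^[n] x) :=
    (𝒟.g_smooth.contMDiffAt (𝒟.A_open.mem_nhds hxA)).mdifferentiableAt (by simp)
  have hw'd : MDifferentiableAt I J 𝒟.w' (η^[n] x) :=
    (𝒟.w'_smooth.contMDiffAt (𝒟.A_open.mem_nhds hxA)).mdifferentiableAt (by simp)
  have hηd : MDifferentiableAt I I (η^[n]) x := (hηn n).mdifferentiableAt (by simp)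
  have a1 := PB.comp (𝒟.w'_form _ hxA) (hpbn n x) hηd hw'd
    ((hkn n).mdifferentiableAt (by simp)) hgd.neg
  have a1d : MDifferentiableAt I J (𝒟.w' ∘ η^[n]) x := hw'd.comp x hηd
  have k1d : MDifferentiableAt I 𝓘(ℝ, ℝ) (fun x => 1 * kn n x + -𝒟.g (η^[n] x)) x := by
    have h1 : MDifferentiableAt I 𝓘(ℝ, ℝ) (fun x => 𝒟.g (η^[n] x)) x := hgd.comp x hηd
    have h2 : MDifferentiableAt I 𝓘(ℝ, ℝ) (fun x => 1 * kn n x) x := by
      simp only [one_mul]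
      exact (hkn n).mdifferentiableAt (by simp)
    exact h2.add h1.neg
  have a2 := PB.comp (f := 𝒟.w' ∘ η^[n]) (x := x) (𝒟.G.pb (n * T) ((𝒟.w' ∘ η^[n]) x)) a1 a1d
    (𝒟.G.mdiff _ _) k1d mdifferentiableAt_const
  have e1 : Ft =ᶠ[𝓝 x] (𝒟.G.φ (n * T) ∘ 𝒟.w' ∘ η^[n]) := by
    filter_upwards [(hXn n).mem_nhds hx] with y hy
    exact hFt n y hy
  have e2 : ft =ᶠ[𝓝 x] fun x => Real.exp (n * T) * (1 * kn n x + -𝒟.g (η^[n] x)) + 0 := by
    filter_upwards [(hXn n).mem_nhds hx] with y hy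
    rw [hft n y hy]
    simp only [fn]
    ring
  have a3 := a2.congr e1 e2
  intro u
  rw [a3 u]
  have h5 : Real.exp (n * T) * (1 * Real.exp (-(n * T))) = 1 := by
    rw [one_mul, ← Real.exp_add, add_neg_cancel, Real.exp_zero]
  rw [h5]

end GermData

end Pool.Agent.Helper186
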