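import Mathlib
import Pool.Agent.KS6_66.Liou.Germ

/-! Conformal flows with a compact attractor, and extension of germs of exact symplectic
diffeomorphisms between neighbourhoods of the attractors. -/

open scoped Topology ContDiff Manifold
open Set Metric Bundle

noncomputable section

namespace Pool.Agent.KS6_66.Liou

open Pool.Agent.Helper186

set_option linter.unusedSectionVars false

universe u

variable {E : Type u} [NormedAddCommGroup E] [NormedSpace ℝ E] [FiniteDimensional ℝ E]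
  {H : Type*} [TopologicalSpace H] {I : ModelWithCorners ℝ E H} [I.Boundaryless]
  {X : Type*} [TopologicalSpace X] [ChartedSpace H X] [IsManifold I ∞ X]
  {E' : Type*} [NormedAddCommGroup E'] [NormedSpace ℝ E'] [FiniteDimensional ℝ E']
  {H' : Type*} [TopologicalSpace H'] {J : ModelWithCorners ℝ E' H'} [J.Boundaryless]
  {N : Type*} [TopologicalSpace N] [ChartedSpace H' N] [IsManifold J ∞ N]

variable {lam : (x : X) → TangentSpace I x →L[ℝ] ℝ} {β : (x : N) → TangentSpace J x →L[ℝ] ℝ}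

/-- `C` is a compact invariant set which attracts all compact sets under the backward flow. -/
structure Attractor (F : ConfFlow I lam) (C : Set X) : Prop where
  compact : IsCompact C
  inv : ∀ (t : ℝ), ∀ x ∈ C, F.φ t x ∈ C
  attr : ∀ K : Set X, IsCompact K → ∀ U : Set X, IsOpen U → C ⊆ U →
    ∃ t₀ : ℝ, ∀ t ≥ t₀, ∀ x ∈ K, F.φ (-t) x ∈ U

include I in
lemma locallyCompact : LocallyCompactSpace X := by
  have : LocallyCompactSpace H := I.locallyCompactSpace
  exact ChartedSpace.locallyCompactSpace H X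

/-- Trapping neighbourhoods. -/
lemma Attractor.trap [T2Space X] {F : ConfFlow I lam} {C : Set X} (h : Attractor F C) {U : Set X}
    (hU : IsOpen U) (hCU : C ⊆ U) : ∃ B : Set X, IsCompact B ∧ B ⊆ U ∧ C ⊆ interior B ∧
      ∀ r ≥ (0 : ℝ), MapsTo (F.φ (-r)) B B := by
  have := locallyCompact (I := I) (X := X)
  obtain ⟨K, hK, h1, h2⟩ := exists_compact_between h.compact hU hCU
  obtain ⟨t₀, ht₀⟩ := h.attr K hK (interior K) isOpen_interior h1
  set τ : ℝ := max t₀ 0 with hτ
  have hτ0 : 0 ≤ τ := le_max_right _ _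
  have hτt : t₀ ≤ τ := le_max_left _ _
  let B : Set X := ⋂ t ∈ Icc (0 : ℝ) τ, F.φ (-t) ⁻¹' K
  have hmem : ∀ x, x ∈ B ↔ ∀ t ∈ Icc (0 : ℝ) τ, F.φ (-t) x ∈ K := fun x => by
    simp only [B, mem_iInter, mem_preimage]
  have hBK : B ⊆ K := by
    intro x hx
    have h3 := (hmem x).1 hx 0 ⟨le_rfl, hτ0⟩
    rwa [neg_zero, F.zero] at h3
  have hBc : IsClosed B := by
    refine isClosed_biInter fun t _ => ?_
    exact hK.isClosed.preimage (F.continuous_slice (-t))
  refine ⟨B, hK.of_isClosed_subset hBc hBK, hBK.trans h2, ?_, ?_⟩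
  · intro x hx
    rw [mem_interior_iff_mem_nhds]
    have h3 : ∀ᶠ y in 𝓝 x, ∀ t ∈ Icc (0 : ℝ) τ, F.φ (-t) y ∈ K := by
      refine isCompact_Icc.eventually_forall_of_forall_eventually (P := fun y t => F.φ (-t) y ∈ K) ?_
      intro t _
      have hc : Continuous (fun p : X × ℝ => F.φ (-p.2) p.1) :=
        F.continuous.comp ((continuous_neg.comp continuous_snd).prodMk continuous_fst)
      have h4 : F.φ (-t) x ∈ interior K := h1 (h.inv (-t) x hx)
      have h5 : ∀ᶠ p : X × ℝ in 𝓝 (x, t), F.φ (-p.2) p.1 ∈ interior K :=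
        (hc.continuousAt (x := (x, t))).eventually (isOpen_interior.mem_nhds h4)
      exact h5.mono fun p hp => interior_subset hp
    filter_upwards [h3] with y hy
    exact (hmem y).2 hy
  · intro r hr x hx
    rw [hmem]
    intro t ht
    rw [← F.add]
    have h3 : -t + -r = -(t + r) := by ring
    rw [h3]
    by_cases h4 : t + r ≤ τ
    · exact (hmem x).1 hx (t + r) ⟨by linarith [ht.1], h4⟩
    · exact interior_subset (ht₀ (t + r) (by linarith [not_le.1 h4]) x (hBK hx))

lemma Attractor.sigmaCompact [T2Space X] {F : ConfFlow I lam} {C : Set X} (h : Attractor F C) :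
    SigmaCompactSpace X := by
  obtain ⟨B, hB, -, hCB, -⟩ := h.trap isOpen_univ (subset_univ _)
  refine ⟨⟨fun n : ℕ => F.φ n '' B, fun n => hB.image (F.continuous_slice _), ?_⟩⟩
  rw [eq_univ_iff_forall]
  intro x
  obtain ⟨t₀, ht₀⟩ := h.attr {x} isCompact_singleton _ isOpen_interior hCB
  obtain ⟨n, hn⟩ := exists_nat_ge t₀
  refine mem_iUnion.2 ⟨n, F.φ (-n) x, interior_subset (ht₀ n hn x rfl), ?_⟩
  exact F.neg_right n x

/-- **Germs of exact symplectic diffeomorphisms extend.** -/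
theorem germ_extends [T2Space X] [T2Space N] {F : ConfFlow I lam} {G : ConfFlow J β}
    {C : Set X} {C' : Set N} (hC : Attractor F C) (hC' : Attractor G C') (hlam : SmoothForm lam)
    (hnd : ∀ (x : X) (u : TangentSpace I x), (∀ v, extDer I lam x u v = 0) → u = 0)
    {A : Set X} {O : Set N} (hA : IsOpen A) (hO : IsOpen O) (hCA : C ⊆ A)
    {w : X → N} {w' : N → X} {g : X → ℝ} (hw : ContMDiffOn I J ∞ w A)
    (hw' : ContMDiffOn J I ∞ w' O) (hg : ContMDiffOn I 𝓘(ℝ, ℝ) ∞ g A)
    (hwA : MapsTo w A O) (hwO : MapsTo w' O A) (hl : ∀ x ∈ A, w' (w x) = x)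
    (hr : ∀ ξ ∈ O, w (w' ξ) = ξ) (hcore : w '' C = C') (hform : ∀ x ∈ A, PB lam β w 1 g x) :
    ∃ (Φ : Diffeomorph I J X N ∞) (f : X → ℝ), ContMDiff I 𝓘(ℝ, ℝ) ∞ f ∧
      (∀ x, PB lam β Φ 1 f x) ∧ ∀ᶠ x in 𝓝ˢ C, Φ x = w x ∧ f x = g x := by
  have := hC.sigmaCompact
  have hw'C : ∀ ξ ∈ C', w' ξ ∈ C := by
    rw [← hcore]
    rintro _ ⟨x, hx, rfl⟩
    rw [hl x (hCA hx)]
    exact hx
  have hwC : ∀ x ∈ C, w x ∈ C' := fun x hx => hcore ▸ mem_image_of_mem w hx
  have hC'O : C' ⊆ O := by
    rw [← hcore]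
    rintro _ ⟨x, hx, rfl⟩
    exact hwA (hCA hx)
  obtain ⟨B, hBc, hBA, hCB, hBinv⟩ := hC.trap hA hCA
  have hO₁ : IsOpen (O ∩ w' ⁻¹' interior B) :=
    hw'.continuousOn.isOpen_inter_preimage hO isOpen_interior
  obtain ⟨Q, hQc, hQO, hCQ, hQinv⟩ := hC'.trap hO₁ fun ξ hξ => ⟨hC'O hξ, hCB (hw'C ξ hξ)⟩
  have hW : IsOpen (A ∩ w ⁻¹' interior Q) :=
    hw.continuousOn.isOpen_inter_preimage hA isOpen_interior
  have hCW : C ⊆ A ∩ w ⁻¹' interior Q := fun x hx => ⟨hCA hx, hCQ (hwC x hx)⟩
  obtain ⟨T₀, hT₀⟩ := hC.attr B hBc _ hW hCW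
  obtain ⟨s₀, hs₀⟩ := hC'.attr (w '' B) (hBc.image_of_continuousOn (hw.continuousOn.mono hBA)) _
    isOpen_interior hCQ
  let 𝒟 : GermData I J lam β :=
    { F := F
      G := G
      w := w'
      w' := w
      O := O
      A := A
      B := B
      Q := Q
      g := fun x => - g x
      T₀ := max T₀ 0
      s₀ := max s₀ 0
      O_open := hO
      A_open := hA
      w_maps := hwO
      w'_maps := hwA
      w'_w := hr
      w_w' := hl
      w_smooth := hw'
      w'_smooth := hw
      g_smooth := hg.neg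
      w'_form := fun x hx => (hform x hx).congr (Filter.Eventually.of_forall fun y => rfl)
        (Filter.Eventually.of_forall fun y => neg_neg _)
      B_sub := hBA
      B_inv := hBinv
      Q_compact := hQc
      Q_sub := fun ξ hξ => (hQO hξ).1
      Q_inv := hQinv
      wQ_B := fun ξ hξ => interior_subset (hQO hξ).2
      T₀_nonneg := le_max_right _ _
      T₀_spec := fun r hr x hx => (hT₀ r (le_trans (le_max_left _ _) hr) x hx).2
      s₀_nonneg := le_max_right _ _
      s₀_spec := fun r hr x hx =>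
        hs₀ r (le_trans (le_max_left _ _) hr) _ (mem_image_of_mem w hx)
      absorb := fun x => by
        obtain ⟨t₀, ht₀⟩ := hC.attr {x} isCompact_singleton _ hW hCW
        exact ⟨t₀, fun t ht => ht₀ t ht x rfl⟩
      absorb' := fun ξ => by
        obtain ⟨t₀, ht₀⟩ := hC'.attr {ξ} isCompact_singleton _ isOpen_interior hCQ
        exact ⟨t₀, fun t ht => ht₀ t ht ξ rfl⟩ }
  obtain ⟨Φ, f, hf, hΦ, hΦW⟩ := 𝒟.equivRel hlam hnd
  refine ⟨Φ, f, hf, hΦ, ?_⟩
  have h1 : A ∩ w ⁻¹' interior Q ∈ 𝓝ˢ C := hW.mem_nhdsSet.2 hCW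
  filter_upwards [h1] with x hx
  have h2 := hΦW x hx
  exact ⟨h2.1, h2.2.trans (neg_neg _)⟩

/-- The core of a Liouville manifold is an attractor. -/
lemma attractor_core [T2Space X] (D : LData I X) : Attractor D.confFlow D.core where
  compact := by
    rw [D.core_eq_iInter]
    refine (D.K_compact 0).of_isClosed_subset (isClosed_iInter fun n => (D.K_compact n).isClosed) ?_
    intro x hx
    have h1 := mem_iInter.1 hx 0
    simpa using h1
  inv := fun t x hx => D.core_inv t hx
  attr := by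
    intro K hK U hU hCU
    obtain ⟨s, hs, hsU⟩ := D.exists_K_sub hU hCU
    obtain ⟨n, hn⟩ := hK.elim_directed_cover (fun n : ℕ => interior (D.K (-n)))
      (fun n => isOpen_interior) (by
        intro x _
        obtain ⟨t, _, ht⟩ := D.sweep x
        obtain ⟨n, hn⟩ := exists_nat_gt t
        refine mem_iUnion.2 ⟨n, D.K_sub_interior (neg_lt_neg hn) ?_⟩
        exact ht) (directed_of_isDirected_le fun m n hmn =>
          interior_mono (D.K_anti (by
            have : (m : ℝ) ≤ n := by exact_mod_cast hmn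
            linarith)))
    refine ⟨n + s, fun t ht x hx => hsU ?_⟩
    have h1 : x ∈ D.K (-n) := interior_subset (hn hx)
    exact D.K_anti (by linarith) (D.K_shift t (-n) h1)

section cot

variable {F : Type*} [NormedAddCommGroup F] [NormedSpace ℝ F] [FiniteDimensional ℝ F]
  {L : Type*} [TopologicalSpace L] [ChartedSpace F L] [IsManifold 𝓘(ℝ, F) ∞ L]

/-- The zero section is an attractor of the flow of the cotangent bundle. -/
lemma attractor_zero [CompactSpace L] [T2Space L] :
    Attractor (cotFlow F L) (range (zeroC : L → Cotangent F L)) where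
  compact := isCompact_range contMDiff_zeroC.continuous
  inv := by
    rintro t _ ⟨q, rfl⟩
    refine ⟨q, ?_⟩
    exact (scal_zeroC _ _).symm
  attr := by
    intro K hK U hU hCU
    obtain ⟨Q, hQ, hQU, hQ0, -⟩ := exists_starshaped hU fun q => hCU ⟨q, rfl⟩
    obtain ⟨s₀, -, hs₀⟩ := exists_contract hQ0 hK
    exact ⟨s₀, fun t ht x hx => hQU (interior_subset (hs₀ t ht x hx))⟩

end cot

end Pool.Agent.KS6_66.Liou
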