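import Mathlib
import Pool.Agent.KS6_66.Liou.Attr

/-! Diffeomorphisms between neighbourhoods of the cores which respect the one-forms and the
symplectic forms only at the points of the cores: the argument of Moser. -/

open scoped Topology ContDiff Manifold
open Set Metric Bundle

noncomputable section

namespace Pool.Agent.KS6_66.Liou

open Pool.Agent.Helper186

set_option linter.unusedSectionVars false

universe u

variable {E : Type u} [NormedAddCommGroup E] [NormedSpace ℝ E] [FiniteDimensional ℝ E]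
  {H : Type*} [TopologicalSpace H] {I : ModelWithCorners ℝ E H} [I.Boundaryless]
  {X : Type*} [TopologicalSpace X] [ChartedSpace H X] [IsManifold I ∞ X]
  {E' : Type*} [NormedAddCommGroup E'] [NormedSpace ℝ E'] [FiniteDimensional ℝ E']
  {H' : Type*} [TopologicalSpace H'] {J : ModelWithCorners ℝ E' H'} [J.Boundaryless]
  {N : Type*} [TopologicalSpace N] [ChartedSpace H' N] [IsManifold J ∞ N]

/-- Exterior derivative and pull back by a map which is smooth on an open set. -/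
lemma extDer_pull_at {w : X → N} {A : Set X} (hA : IsOpen A) (hw : ContMDiffOn I J ∞ w A)
    {α : (x : X) → TangentSpace I x →L[ℝ] ℝ} (hα : SmoothForm α)
    {β : (y : N) → TangentSpace J y →L[ℝ] ℝ} (hβ : SmoothForm β) {ξ : X} (hξ : ξ ∈ A)
    (heq : ∀ᶠ x in 𝓝 ξ, ∀ u, α x u = β (w x) (mfderiv I J w x u)) (u v : TangentSpace I ξ) :
    extDer I α ξ u v = extDer J β (w ξ) (mfderiv I J w ξ u) (mfderiv I J w ξ v) := by
  set ψ := extChartAt I ξ with hψ
  have hψo : IsOpen ψ.target := isOpen_extChartAt_target ξ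
  have hψs : ContMDiffOn 𝓘(ℝ, E) I ∞ ψ.symm ψ.target := contMDiffOn_extChartAt_symm ξ
  have hy : ψ ξ ∈ ψ.target := mem_extChartAt_target ξ
  have hsym : ψ.symm (ψ ξ) = ξ := ψ.left_inv (mem_extChartAt_source ξ)
  set U : Set E := ψ.target ∩ ψ.symm ⁻¹' A with hU
  have hUo : IsOpen U := hψs.continuousOn.isOpen_inter_preimage hψo hA
  have hyU : ψ ξ ∈ U := ⟨hy, by show ψ.symm (ψ ξ) ∈ A; rw [hsym]; exact hξ⟩
  have hwψ : ContMDiffOn 𝓘(ℝ, E) J ∞ (w ∘ ψ.symm) U :=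
    hw.comp (hψs.mono inter_subset_left) fun y hy => hy.2
  have h1 := extDer_pullback hα hψo hψs hy (u : E) (v : E)
  have h2 := extDer_pullback hβ hUo hwψ hyU (u : E) (v : E)
  have hGψ : ∀ q ∈ U, ∀ a : E, mfderiv 𝓘(ℝ, E) J (w ∘ ψ.symm) q a =
      mfderiv I J w (ψ.symm q) (mfderiv 𝓘(ℝ, E) I ψ.symm q a) := by
    intro q hq a
    have h3 := mfderiv_comp (I := 𝓘(ℝ, E)) (I' := I) (I'' := J) q
      ((hw.contMDiffAt (hA.mem_nhds hq.2)).mdifferentiableAt (by simp))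
      ((hψs.contMDiffAt (hψo.mem_nhds hq.1)).mdifferentiableAt (by simp))
    exact DFunLike.congr_fun h3 a
  have hcont : ContinuousAt ψ.symm (ψ ξ) := (hψs.contMDiffAt (hψo.mem_nhds hy)).continuousAt
  have heq' : ∀ᶠ q in 𝓝 (ψ ξ), ∀ u, α (ψ.symm q) u =
      β (w (ψ.symm q)) (mfderiv I J w (ψ.symm q) u) := by
    refine hcont.eventually (p := fun x => ∀ u, α x u = β (w x) (mfderiv I J w x u)) ?_
    rw [hsym]
    exact heq
  -- the right hand sides agree
  have h3 : ∀ a : E, (fun q => α (ψ.symm q) (mfderiv 𝓘(ℝ, E) I ψ.symm q a))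
      =ᶠ[𝓝 (ψ ξ)] fun q => β ((w ∘ ψ.symm) q) (mfderiv 𝓘(ℝ, E) J (w ∘ ψ.symm) q a) := by
    intro a
    filter_upwards [hUo.mem_nhds hyU, heq'] with q hq hq'
    rw [hq', hGψ q hq]
    rfl
  have h4 := congrArg₂ (fun a b : ℝ => a - b)
    (congrArg (fun L : E →L[ℝ] ℝ => L u) (h3 v).fderiv_eq)
    (congrArg (fun L : E →L[ℝ] ℝ => L v) (h3 u).fderiv_eq)
  have h5 := h1.trans (h4.trans h2.symm)
  -- simplify the points
  have e1 : extDer I α (ψ.symm (ψ ξ))
      (mfderiv 𝓘(ℝ, E) I ψ.symm (ψ ξ) (show E from u))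
      (mfderiv 𝓘(ℝ, E) I ψ.symm (ψ ξ) (show E from v)) =
      extDer I α ξ u v := by
    have e2 : ∀ (z : X), z = ξ → ∀ a b a' b' : E, a = a' → b = b' →
        extDer I α z a b = extDer I α ξ a' b' := by
      rintro z rfl a b a' b' rfl rfl; rfl
    exact e2 _ hsym _ _ _ _ (mfderiv_extChartAt_symm_self ξ (show E from u))
      (mfderiv_extChartAt_symm_self ξ (show E from v))
  have e3 : extDer J β ((w ∘ ψ.symm) (ψ ξ))
      (mfderiv 𝓘(ℝ, E) J (w ∘ ψ.symm) (ψ ξ) (show E from u))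
      (mfderiv 𝓘(ℝ, E) J (w ∘ ψ.symm) (ψ ξ) (show E from v)) =
      extDer J β (w ξ) (mfderiv I J w ξ u) (mfderiv I J w ξ v) := by
    have e2 : ∀ (z : N), z = w ξ → ∀ a b a' b' : E', a = a' → b = b' →
        extDer J β z a b = extDer J β (w ξ) a' b' := by
      rintro z rfl a b a' b' rfl rfl; rfl
    have e4 : ∀ a : E, (mfderiv 𝓘(ℝ, E) J (w ∘ ψ.symm) (ψ ξ) a : E') =
        (mfderiv I J w ξ a : E') := by
      intro a
      have e5 := hGψ (ψ ξ) hyU a
      refine e5.trans ?_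
      have e6 : ∀ (z : X), z = ξ → ∀ a a' : E, a = a' →
        (mfderiv I J w z a : E') = (mfderiv I J w ξ a' : E') := by
        rintro z rfl a a' rfl; rfl
      exact e6 _ hsym _ _ (mfderiv_extChartAt_symm_self ξ a)
    exact e2 _ (congrArg w hsym) _ _ _ _ (e4 u) (e4 v)
  exact e1.symm.trans (h5.trans e3)

/-- The pull back of a one-form by a map smooth on an open set, cut off. -/
def cutPull (χ : X → ℝ) (w : X → N) (β : (y : N) → TangentSpace J y →L[ℝ] ℝ)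
    (α : (x : X) → TangentSpace I x →L[ℝ] ℝ) (x : X) : TangentSpace I x →L[ℝ] ℝ :=
  χ x • (β (w x)).comp (mfderiv I J w x) + (1 - χ x) • α x

lemma cutPull_apply (χ : X → ℝ) (w : X → N) (β : (y : N) → TangentSpace J y →L[ℝ] ℝ)
    (α : (x : X) → TangentSpace I x →L[ℝ] ℝ) (x : X) (u : TangentSpace I x) :
    cutPull χ w β α x u = χ x * β (w x) (mfderiv I J w x u) + (1 - χ x) * α x u := rfl

lemma smooth_cutPull {χ : X → ℝ} (hχ : ContMDiff I 𝓘(ℝ, ℝ) ∞ χ) {K' A : Set X}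
    (hK' : IsClosed K') (hA : IsOpen A) (hKA : K' ⊆ A) (hχ0 : ∀ x ∉ K', χ x = 0)
    {w : X → N} (hw : ContMDiffOn I J ∞ w A)
    {β : (y : N) → TangentSpace J y →L[ℝ] ℝ} (hβ : SmoothForm β)
    {α : (x : X) → TangentSpace I x →L[ℝ] ℝ} (hα : SmoothForm α) :
    SmoothForm (cutPull χ w β α) := by
  have hπ : Continuous (TotalSpace.proj : TangentBundle I X → X) :=
    FiberBundle.continuous_proj _ _
  have hχT : ContMDiff I.tangent 𝓘(ℝ, ℝ) ∞ (fun V : TangentBundle I X => χ V.1) :=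
    hχ.comp (contMDiff_proj _)
  have h1 : ContMDiff I.tangent 𝓘(ℝ, ℝ) ∞ (fun V : TangentBundle I X =>
      χ V.1 * β (w V.1) (mfderiv I J w V.1 V.2)) := by
    intro V
    by_cases hV : V.1 ∈ A
    · have h2 : ContMDiffAt I.tangent 𝓘(ℝ, ℝ) ∞
          (fun V : TangentBundle I X => β (w V.1) (mfderiv I J w V.1 V.2)) V :=
        hβ.comp (contMDiffAt_tangentMap hA hw hV) le_rfl
      exact (hχT V).mul h2
    · have hV' : V.1 ∈ K'ᶜ := fun h => hV (hKA h)
      refine (contMDiffAt_const (c := (0:ℝ))).congr_of_eventuallyEq ?_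
      have h3 : IsOpen (TotalSpace.proj ⁻¹' K'ᶜ : Set (TangentBundle I X)) :=
        hK'.isOpen_compl.preimage hπ
      filter_upwards [h3.mem_nhds hV'] with W hW
      rw [hχ0 W.1 hW, zero_mul]
  have h2 : ContMDiff I.tangent 𝓘(ℝ, ℝ) ∞ (fun V : TangentBundle I X =>
      (1 - χ V.1) * α V.1 V.2) := (contMDiff_const.sub hχT).mul hα
  exact h1.add h2

/-- **Infinitesimal version of the extension theorem.** -/
theorem infinitesimal_extends [T2Space X] [T2Space N]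
    {lam : (x : X) → TangentSpace I x →L[ℝ] ℝ} {β : (x : N) → TangentSpace J x →L[ℝ] ℝ}
    {F : ConfFlow I lam} {G : ConfFlow J β}
    {C : Set X} {C' : Set N} (hC : Attractor F C) (hC' : Attractor G C') (hlam : SmoothForm lam)
    (hβ : SmoothForm β)
    (hnd : ∀ (x : X) (u : TangentSpace I x), (∀ v, extDer I lam x u v = 0) → u = 0)
    {A : Set X} {O : Set N} (hA : IsOpen A) (hO : IsOpen O) (hCA : C ⊆ A)
    {w : X → N} {w' : N → X} {g : X → ℝ} (hw : ContMDiffOn I J ∞ w A)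
    (hw' : ContMDiffOn J I ∞ w' O) (hg : ContMDiffOn I 𝓘(ℝ, ℝ) ∞ g A)
    (hwA : MapsTo w A O) (hwO : MapsTo w' O A) (hl : ∀ x ∈ A, w' (w x) = x)
    (hr : ∀ ξ ∈ O, w (w' ξ) = ξ) (hcore : w '' C = C')
    (hform : ∀ x ∈ C, PB lam β w 1 g x)
    (hdform : ∀ x ∈ C, ∀ u v : TangentSpace I x,
      extDer J β (w x) (mfderiv I J w x u) (mfderiv I J w x v) = extDer I lam x u v) :
    ∃ (Φ : Diffeomorph I J X N ∞) (f : X → ℝ), ContMDiff I 𝓘(ℝ, ℝ) ∞ f ∧
      (∀ x, PB lam β Φ 1 f x) ∧ ∀ x ∈ C, Φ x = w x := by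
  have := hC.sigmaCompact
  obtain ⟨χ, K', hχ, hK', hK'A, hχ1, hχ0⟩ := exists_cutoff I hC.compact hA hCA
  obtain ⟨S₀, hS₀o, hCS₀, hS₀⟩ := mem_nhdsSet_iff_exists.1 hχ1
  set S : Set X := S₀ ∩ A with hS
  have hSo : IsOpen S := hS₀o.inter hA
  have hCS : C ⊆ S := fun x hx => ⟨hCS₀ hx, hCA hx⟩
  have hSχ : ∀ x ∈ S, χ x = 1 := fun x hx => hS₀ hx.1
  -- the global function
  set g₁ : X → ℝ := fun x => χ x * g x with hg₁
  have hg₁s : ContMDiff I 𝓘(ℝ, ℝ) ∞ g₁ := contMDiff_cutoff_mul hK'.isClosed hA hK'A hχ hg hχ0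
  have hg₁S : ∀ x ∈ S, g₁ x = g x := fun x hx => by simp only [hg₁, hSχ x hx, one_mul]
  -- the two forms
  set α₀ : (x : X) → TangentSpace I x →L[ℝ] ℝ := fun x => lam x + dForm I g₁ x with hα₀
  have hα₀s : SmoothForm α₀ := hlam.add (smoothForm_dForm hg₁s)
  set α₁ : (x : X) → TangentSpace I x →L[ℝ] ℝ := cutPull χ w β α₀ with hα₁
  have hα₁s : SmoothForm α₁ := smooth_cutPull hχ hK'.isClosed hA hK'A hχ0 hw hβ hα₀s
  have hα₁S : ∀ x ∈ S, ∀ u, α₁ x u = β (w x) (mfderiv I J w x u) := by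
    intro x hx u
    rw [hα₁, cutPull_apply, hSχ x hx]
    ring
  have hd0 : ∀ x (u v : TangentSpace I x), extDer I α₀ x u v = extDer I lam x u v := by
    intro x u v
    rw [hα₀, extDer_add hlam (smoothForm_dForm hg₁s), extDer_dForm hg₁s, add_zero]
  have hd1 : ∀ x ∈ C, ∀ (u v : TangentSpace I x), extDer I α₁ x u v = extDer I lam x u v := by
    intro x hx u v
    rw [extDer_pull_at hSo (hw.mono fun y hy => hy.2) hα₁s hβ (hCS hx)
      (by filter_upwards [hSo.mem_nhds (hCS hx)] with y hy using hα₁S y hy) u v]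
    exact hdform x hx u v
  have hd : ∀ x ∈ S, ∀ u : TangentSpace I x, (show ℝ from mfderiv I 𝓘(ℝ, ℝ) g₁ x u) =
      (show ℝ from mfderiv I 𝓘(ℝ, ℝ) g x u) := by
    intro x hx u
    have h1 : g₁ =ᶠ[𝓝 x] g := by
      filter_upwards [hSo.mem_nhds hx] with y hy using hg₁S y hy
    exact DFunLike.congr_fun (h1.mfderiv_eq (I := I) (I' := 𝓘(ℝ, ℝ))) u
  have heq : ∀ x ∈ C, α₀ x = α₁ x := by
    intro x hx
    refine ContinuousLinearMap.ext fun u => ?_
    rw [hα₁S x (hCS hx) u, hform x hx u, one_mul]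
    exact congrArg (fun a : ℝ => lam x u + a) (hd x (hCS hx) u)
  obtain ⟨ρ, ρi, κ, V, hρ, hρi, hρiρ, hρρi, hκ, hρC, hV, hCV, hpb⟩ := moser hα₀s hα₁s hC.compact
    heq (by
      intro s x hx u hu
      refine hnd x u fun v => ?_
      have h1 := hu v
      rw [moserB_apply] at h1
      simp only at h1
      rw [hd0 x u v, hd1 x hx u v] at h1
      linarith)
  -- the corrected germ
  have hρiC : ∀ x ∈ C, ρi x = x := by
    intro x hx
    have h1 := hρiρ x
    rwa [hρC x hx] at h1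
  set A₁ : Set X := ρ ⁻¹' S ∩ V with hA₁
  have hA₁o : IsOpen A₁ := (hSo.preimage hρ.continuous).inter hV
  set O₁ : Set N := O ∩ w' ⁻¹' (S ∩ ρi ⁻¹' V) with hO₁
  have hO₁o : IsOpen O₁ := hw'.continuousOn.isOpen_inter_preimage hO
    (hSo.inter (hV.preimage hρi.continuous))
  have hCA₁ : C ⊆ A₁ := by
    intro x hx
    refine ⟨?_, hCV hx⟩
    show ρ x ∈ S
    rw [hρC x hx]
    exact hCS hx
  obtain ⟨Φ, f, hf, hΦ, hΦw⟩ := germ_extends (w := w ∘ ρ) (w' := ρi ∘ w')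
    (g := fun x => g₁ x + κ x) hC hC' hlam hnd hA₁o hO₁o hCA₁
    (hw.comp hρ.contMDiffOn fun x hx => hx.1.2)
    (hρi.comp_contMDiffOn (hw'.mono inter_subset_left))
    (hg₁s.add hκ).contMDiffOn
    (fun x hx => ⟨hwA hx.1.2, by
      show w' (w (ρ x)) ∈ S ∩ ρi ⁻¹' V
      rw [hl _ hx.1.2]
      refine ⟨hx.1, ?_⟩
      show ρi (ρ x) ∈ V
      rw [hρiρ]
      exact hx.2⟩)
    (fun ξ hξ => ⟨by
      show ρ (ρi (w' ξ)) ∈ S
      rw [hρρi]
      exact hξ.2.1, hξ.2.2⟩)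
    (fun x hx => by
      show ρi (w' (w (ρ x))) = x
      rw [hl _ hx.1.2, hρiρ])
    (fun ξ hξ => by
      show w (ρ (ρi (w' ξ))) = ξ
      rw [hρρi, hr _ hξ.1])
    (by
      rw [← hcore]
      ext y
      constructor
      · rintro ⟨x, hx, rfl⟩
        exact ⟨x, hx, by show w x = w (ρ x); rw [hρC x hx]⟩
      · rintro ⟨x, hx, rfl⟩
        exact ⟨x, hx, by show w (ρ x) = w x; rw [hρC x hx]⟩)
    (by
      intro x hx
      have hy : ρ x ∈ S := hx.1
      have a1 : PB α₁ β w 1 (fun _ => 0) (ρ x) := by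
        intro u
        have h1 : mfderiv I 𝓘(ℝ, ℝ) (fun _ : X => (0:ℝ)) (ρ x) = 0 := mfderiv_const
        have h2 : (show ℝ from mfderiv I 𝓘(ℝ, ℝ) (fun _ : X => (0:ℝ)) (ρ x) u) = 0 :=
          DFunLike.congr_fun h1 u
        rw [h2, hα₁S _ hy u, one_mul, add_zero]
      have a2 := PB.comp a1 (hpb x hx.2) (hρ.mdifferentiableAt (by simp))
        ((hw.contMDiffAt (hA.mem_nhds hy.2)).mdifferentiableAt (by simp))
        (hκ.mdifferentiableAt (by simp)) mdifferentiableAt_const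
      intro u
      have a3 := a2 u
      have a4 : (show ℝ from mfderiv I 𝓘(ℝ, ℝ) (fun x => 1 * κ x + (fun _ : X => (0:ℝ)) (ρ x)) x u) =
          (show ℝ from mfderiv I 𝓘(ℝ, ℝ) κ x u) := by
        have h1 : (fun x => 1 * κ x + (fun _ : X => (0:ℝ)) (ρ x)) = κ := by
          ext y; simp
        rw [h1]
        rfl
      have a5 : (show ℝ from mfderiv I 𝓘(ℝ, ℝ) (fun x => g₁ x + κ x) x u) =
          (show ℝ from mfderiv I 𝓘(ℝ, ℝ) g₁ x u) + (show ℝ from mfderiv I 𝓘(ℝ, ℝ) κ x u) := by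
        have h1 := (hg₁s.mdifferentiableAt (by simp) (x := x)).hasMFDerivAt.add
          (hκ.mdifferentiableAt (by simp) (x := x)).hasMFDerivAt
        exact DFunLike.congr_fun h1.mfderiv u
      rw [a4] at a3
      rw [a5]
      have a6 : α₀ x u = lam x u + (show ℝ from mfderiv I 𝓘(ℝ, ℝ) g₁ x u) := rfl
      rw [a6] at a3
      rw [a3]
      ring)
  refine ⟨Φ, f, hf, hΦ, fun x hx => ?_⟩
  have h1 := (hΦw.filter_mono (nhds_le_nhdsSet hx)).self_of_nhds
  rw [h1.1]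
  show w (ρ x) = w x
  rw [hρC x hx]

end Pool.Agent.KS6_66.Liou
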