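import Mathlib

/-! Functions vanishing on an embedded submanifold with prescribed differential along it: the
case of a vector space. -/

open scoped Topology ContDiff Manifold
open Set Metric

noncomputable section

namespace Pool.Agent.KS6_66.Liou

variable {E : Type*} [NormedAddCommGroup E] [NormedSpace ℝ E] [FiniteDimensional ℝ E]
  {F : Type*} [NormedAddCommGroup F] [NormedSpace ℝ F] [FiniteDimensional ℝ F]

lemma flat_primitive {h : F → E} {V₀ : Set F} (hV₀ : IsOpen V₀) (hh : ContDiffOn ℝ ∞ h V₀)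
    {a : F} (ha : a ∈ V₀) (himm : Function.Injective (fderiv ℝ h a)) {Ω : Set E} (hΩ : IsOpen Ω)
    {s : E → (E →L[ℝ] ℝ)} (hs : ContDiffOn ℝ ∞ s Ω) (hhΩ : MapsTo h V₀ Ω)
    (hs0 : ∀ y ∈ V₀, ∀ v, s (h y) (fderiv ℝ h y v) = 0) :
    ∃ (G : E → ℝ) (W : Set E) (V₁ : Set F), IsOpen W ∧ h a ∈ W ∧ W ⊆ Ω ∧ IsOpen V₁ ∧ a ∈ V₁ ∧
      V₁ ⊆ V₀ ∧ ContDiffOn ℝ ∞ G W ∧
      ∀ y ∈ V₁, h y ∈ W → G (h y) = 0 ∧ fderiv ℝ G (h y) = s (h y) := by
  have : CompleteSpace F := FiniteDimensional.complete ℝ F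
  obtain ⟨P₀, hP₀⟩ := (fderiv ℝ h a : F →ₗ[ℝ] E).exists_leftInverse_of_injective
    (LinearMap.ker_eq_bot.2 himm)
  let P : E →L[ℝ] F := LinearMap.toContinuousLinearMap P₀
  have hP : ∀ v, P (fderiv ℝ h a v) = v := fun v => LinearMap.congr_fun hP₀ v
  have hat : ∀ y ∈ V₀, ContDiffAt ℝ ∞ h y := fun y hy => hh.contDiffAt (hV₀.mem_nhds hy)
  have hder : ∀ y ∈ V₀, HasFDerivAt h (fderiv ℝ h y) y := fun y hy =>
    ((hat y hy).differentiableAt (by simp)).hasFDerivAt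
  set k : F → F := fun y => P (h y) with hk
  have hkon : ContDiffOn ℝ ∞ k V₀ := P.contDiff.comp_contDiffOn hh
  have hkat : ∀ y ∈ V₀, ContDiffAt ℝ ∞ k y := fun y hy => hkon.contDiffAt (hV₀.mem_nhds hy)
  have hka' : HasFDerivAt k ((ContinuousLinearEquiv.refl ℝ F : F ≃L[ℝ] F) : F →L[ℝ] F) a := by
    have h1 : HasFDerivAt k (P.comp (fderiv ℝ h a)) a := P.hasFDerivAt.comp a (hder a ha)
    refine h1.congr_fderiv ?_
    ext v
    exact hP v
  set e := (hkat a ha).toOpenPartialHomeomorph k hka' (by simp) with he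
  have hek : ∀ y, e y = k y := fun y => rfl
  -- where the derivative is invertible
  set V₂ : Set F := V₀ ∩ fderiv ℝ k ⁻¹' range ((↑) : (F ≃L[ℝ] F) → F →L[ℝ] F) with hV₂
  have hV₂o : IsOpen V₂ := (hkon.continuousOn_fderiv_of_isOpen hV₀ (by simp)).isOpen_inter_preimage
    hV₀ (ContinuousLinearEquiv.isOpen)
  have haV₂ : a ∈ V₂ := ⟨ha, ⟨_, hka'.fderiv.symm⟩⟩
  set Jt : Set F := e.target ∩ e.symm ⁻¹' V₂ with hJt
  have hJto : IsOpen Jt := e.isOpen_inter_preimage_symm hV₂o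
  have hj : ContDiffOn ℝ ∞ e.symm Jt := by
    intro z hz
    obtain ⟨h1, c, hc⟩ := hz.2
    refine (e.contDiffAt_symm (f₀' := c) hz.1 ?_ (hkat _ h1)).contDiffWithinAt
    have h2 : HasFDerivAt k (fderiv ℝ k (e.symm z)) (e.symm z) :=
      ((hkat _ h1).differentiableAt (by simp)).hasFDerivAt
    rw [← hc] at h2
    exact h2
  set V₁ : Set F := e.source ∩ V₂ with hV₁
  have hV₁o : IsOpen V₁ := e.open_source.inter hV₂o
  have hjk : ∀ y ∈ V₁, e.symm (k y) = y ∧ k y ∈ Jt := by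
    intro y hy
    have h1 : e.symm (k y) = y := e.left_inv hy.1
    refine ⟨h1, e.map_source hy.1, ?_⟩
    show e.symm (k y) ∈ V₂
    rw [h1]
    exact hy.2
  have haV₁ : a ∈ V₁ := ⟨(hkat a ha).mem_toOpenPartialHomeomorph_source hka' (by simp), haV₂⟩
  set W : Set E := Ω ∩ P ⁻¹' Jt with hW
  have hWo : IsOpen W := hΩ.inter (hJto.preimage P.continuous)
  set R : E → E := fun z => h (e.symm (P z)) with hR
  have hjP : ContDiffOn ℝ ∞ (fun z => e.symm (P z)) W :=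
    hj.comp P.contDiff.contDiffOn fun z hz => hz.2
  have hRW : ContDiffOn ℝ ∞ R W := hh.comp hjP fun z hz => hz.2.2.1
  have hRΩ : MapsTo R W Ω := fun z hz => hhΩ hz.2.2.1
  have hsR : ContDiffOn ℝ ∞ (fun z => s (R z)) W := hs.comp hRW hRΩ
  refine ⟨fun z => s (R z) (z - R z), W, V₁, hWo, ⟨hhΩ ha, (hjk a haV₁).2⟩, inter_subset_left,
    hV₁o, haV₁, fun y hy => hy.2.1, hsR.clm_apply (contDiffOn_id.sub hRW), ?_⟩
  intro y hy hyW
  have hRy : R (h y) = h y := by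
    show h (e.symm (k y)) = h y
    rw [(hjk y hy).1]
  refine ⟨?_, ?_⟩
  · show s (R (h y)) (h y - R (h y)) = 0
    rw [hRy, sub_self, map_zero]
  · have h1 : HasFDerivAt (fun z => s (R z)) (fderiv ℝ (fun z => s (R z)) (h y)) (h y) :=
      ((hsR.contDiffAt (hWo.mem_nhds hyW)).differentiableAt (by simp)).hasFDerivAt
    have h2 : HasFDerivAt (fun z => e.symm (P z)) (fderiv ℝ (fun z => e.symm (P z)) (h y)) (h y) :=
      ((hjP.contDiffAt (hWo.mem_nhds hyW)).differentiableAt (by simp)).hasFDerivAt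
    have h3 : HasFDerivAt h (fderiv ℝ h y) (e.symm (P (h y))) := by
      have h4 : e.symm (P (h y)) = y := (hjk y hy).1
      rw [h4]
      exact hder y hy.2.1
    have h5 : HasFDerivAt R ((fderiv ℝ h y).comp (fderiv ℝ (fun z => e.symm (P z)) (h y))) (h y) :=
      h3.comp (h y) h2
    have h6 : HasFDerivAt (fun z : E => z - R z) _ (h y) := (hasFDerivAt_id (h y)).sub h5
    have h7 := h1.clm_apply h6
    rw [h7.fderiv]
    ext v
    simp only [hRy, sub_self, add_apply, ContinuousLinearMap.comp_apply, sub_apply,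
      ContinuousLinearMap.flip_apply, map_zero, add_zero, map_sub]
    rw [hs0 y hy.2.1, sub_zero]
    rfl

end Pool.Agent.KS6_66.Liou
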