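import Mathlib
import Pool.Graph.R_seed8.Helper186.LMain
import Pool.Agent.KS6_66.Liou.Flat

/-! A smooth one-form which vanishes on the tangent spaces of a compact embedded submanifold is, at
the points of the submanifold, the differential of a smooth function. -/

open scoped Topology ContDiff Manifold
open Set Metric Bundle

noncomputable section

namespace Pool.Agent.KS6_66.Liou

open Pool.Agent.Helper186

set_option linter.unusedSectionVars false

variable {F : Type*} [NormedAddCommGroup F] [NormedSpace ℝ F] [FiniteDimensional ℝ F]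
  {L : Type*} [TopologicalSpace L] [ChartedSpace F L] [IsManifold 𝓘(ℝ, F) ∞ L]
  {E : Type*} [NormedAddCommGroup E] [NormedSpace ℝ E] [FiniteDimensional ℝ E]
  {H : Type*} [TopologicalSpace H] {I : ModelWithCorners ℝ E H} [I.Boundaryless]
  {X : Type*} [TopologicalSpace X] [ChartedSpace H X] [IsManifold I ∞ X]

lemma chart_key (σ : (x : X) → TangentSpace I x →L[ℝ] ℝ) {P : Type*} [NormedAddCommGroup P]
    [NormedSpace ℝ P] {S : P → X} {p : P} (hS : ContMDiffAt 𝓘(ℝ, P) I ∞ S p) (x₀ : X)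
    (hx : S p ∈ (extChartAt I x₀).source) (w : P) :
    σ (S p) (mfderiv 𝓘(ℝ, P) I S p w) = chartForm I σ x₀ (extChartAt I x₀ (S p))
      (fderiv ℝ (fun q => extChartAt I x₀ (S q)) p w) := by
  set φ := extChartAt I x₀ with hφ
  set T : P → E := fun q => φ (S q) with hT
  have hs : S p ∈ (chartAt H x₀).source := by rwa [hφ, extChartAt_source] at hx
  have hTat : ContMDiffAt 𝓘(ℝ, P) 𝓘(ℝ, E) ∞ T p := (contMDiffAt_extChartAt' hs).comp p hS
  have e1 : S =ᶠ[𝓝 p] φ.symm ∘ T := by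
    have h1 : ∀ᶠ q in 𝓝 p, S q ∈ φ.source :=
      hS.continuousAt.eventually ((isOpen_extChartAt_source x₀).mem_nhds hx)
    filter_upwards [h1] with q hq
    exact (φ.left_inv hq).symm
  have hTq : T p ∈ φ.target := φ.map_source hx
  have e2 := tangentMap_congr_of_eventuallyEq (J := 𝓘(ℝ, P)) (I := I)
    (v := (⟨p, w⟩ : TangentBundle 𝓘(ℝ, P) P)) e1
  have e3 : tangentMap 𝓘(ℝ, P) I (φ.symm ∘ T) (⟨p, w⟩ : TangentBundle 𝓘(ℝ, P) P) =
      tangentMap 𝓘(ℝ, E) I φ.symm (tangentMap 𝓘(ℝ, P) 𝓘(ℝ, E) T ⟨p, w⟩) := by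
    apply tangentMap_comp_at
    · exact ((contMDiffOn_extChartAt_symm (n := ∞) x₀).contMDiffAt
        ((isOpen_extChartAt_target x₀).mem_nhds hTq)).mdifferentiableAt (by simp)
    · exact hTat.mdifferentiableAt (by simp)
  have e4 : (fun v : TangentBundle I X => σ v.1 v.2)
      (tangentMap 𝓘(ℝ, P) I S (⟨p, w⟩ : TangentBundle 𝓘(ℝ, P) P)) =
      (fun v : TangentBundle I X => σ v.1 v.2)
      (tangentMap 𝓘(ℝ, E) I φ.symm (tangentMap 𝓘(ℝ, P) 𝓘(ℝ, E) T ⟨p, w⟩)) := by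
    rw [e2, e3]
  rw [chartForm_apply]
  refine e4.trans ?_
  simp only [tangentMap, mfderiv_eq_fderiv]
  rfl

/-- The local statement. -/
lemma local_primitive {ι : L → X} (hι : ContMDiff 𝓘(ℝ, F) I ∞ ι) (hιe : Topology.IsEmbedding ι)
    (hιimm : ∀ q, Function.Injective (mfderiv 𝓘(ℝ, F) I ι q))
    {σ : (x : X) → TangentSpace I x →L[ℝ] ℝ} (hσ : SmoothForm σ)
    (hσ0 : ∀ q (v : TangentSpace 𝓘(ℝ, F) q), σ (ι q) (mfderiv 𝓘(ℝ, F) I ι q v) = 0) (q₀ : L) :
    ∃ (g : X → ℝ) (U : Set X), IsOpen U ∧ ι q₀ ∈ U ∧ ContMDiffOn I 𝓘(ℝ, ℝ) ∞ g U ∧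
      ∀ q, ι q ∈ U → g (ι q) = 0 ∧ ∀ u : TangentSpace I (ι q), dForm I g (ι q) u = σ (ι q) u := by
  set x₀ := ι q₀ with hx₀
  set φ := extChartAt I x₀ with hφ
  set ψ := extChartAt 𝓘(ℝ, F) q₀ with hψ
  set a := ψ q₀ with ha
  have hψo : IsOpen ψ.target := isOpen_extChartAt_target q₀
  have hψs : ContMDiffOn 𝓘(ℝ, F) 𝓘(ℝ, F) ∞ ψ.symm ψ.target := contMDiffOn_extChartAt_symm q₀
  have hsym : ψ.symm a = q₀ := ψ.left_inv (mem_extChartAt_source q₀)
  set S : F → X := ι ∘ ψ.symm with hS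
  have hSs : ContMDiffOn 𝓘(ℝ, F) I ∞ S ψ.target := hι.comp_contMDiffOn hψs
  set V₀ : Set F := ψ.target ∩ S ⁻¹' φ.source with hV₀
  have hV₀o : IsOpen V₀ := hSs.continuousOn.isOpen_inter_preimage hψo (isOpen_extChartAt_source x₀)
  have haV₀ : a ∈ V₀ := ⟨mem_extChartAt_target q₀, by
    show ι (ψ.symm a) ∈ φ.source
    rw [hsym]
    exact mem_extChartAt_source x₀⟩
  set h : F → E := φ ∘ S with hh
  have hSat : ∀ y ∈ V₀, ContMDiffAt 𝓘(ℝ, F) I ∞ S y := fun y hy =>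
    hSs.contMDiffAt (hψo.mem_nhds hy.1)
  have hhs : ContDiffOn ℝ ∞ h V₀ := by
    rw [← contMDiffOn_iff_contDiffOn]
    intro y hy
    have hs : S y ∈ (chartAt H x₀).source := by
      have := hy.2
      rwa [mem_preimage, hφ, extChartAt_source] at this
    exact ((contMDiffAt_extChartAt' hs).comp y (hSat y hy)).contMDiffWithinAt
  have hfd : fderiv ℝ h a = mfderiv 𝓘(ℝ, F) I ι q₀ := by
    have h1 := (hι.mdifferentiableAt (by simp) (x := q₀)).mfderiv
    rw [h1]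
    simp only [modelWithCornersSelf_coe, range_id, fderivWithin_univ]
    rfl
  have himm : Function.Injective (fderiv ℝ h a) := by rw [hfd]; exact hιimm q₀
  obtain ⟨G, W, V₁, hWo, hW, hWΩ, hV₁o, haV₁, hV₁, hG, hG1⟩ := flat_primitive hV₀o hhs haV₀ himm
    (isOpen_extChartAt_target x₀) (contDiffOn_chartForm hσ x₀) (fun y hy => φ.map_source hy.2) (by
      intro y hy v
      have h1 := chart_key σ (hSat y hy) x₀ hy.2 v
      have h2 : mfderiv 𝓘(ℝ, F) I S y v =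
          mfderiv 𝓘(ℝ, F) I ι (ψ.symm y) (mfderiv 𝓘(ℝ, F) 𝓘(ℝ, F) ψ.symm y v) := by
        have h3 := mfderiv_comp (I := 𝓘(ℝ, F)) (I' := 𝓘(ℝ, F)) (I'' := I) y
          (hι.mdifferentiableAt (by simp) (x := ψ.symm y))
          ((hψs.contMDiffAt (hψo.mem_nhds hy.1)).mdifferentiableAt (by simp))
        exact DFunLike.congr_fun h3 v
      have h3 : σ (S y) (mfderiv 𝓘(ℝ, F) I S y v) = 0 := by
        rw [h2]
        exact hσ0 (ψ.symm y) _
      rw [h3] at h1
      exact h1.symm)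
  have hV₂ : IsOpen (ψ.source ∩ ψ ⁻¹' V₁) :=
    (continuousOn_extChartAt q₀).isOpen_inter_preimage (isOpen_extChartAt_source q₀) hV₁o
  obtain ⟨U₁, hU₁o, hU₁⟩ := hιe.isInducing.isOpen_iff.1 hV₂
  set U : Set X := (φ.source ∩ φ ⁻¹' W) ∩ U₁ with hU
  have hUo : IsOpen U := ((continuousOn_extChartAt x₀).isOpen_inter_preimage
    (isOpen_extChartAt_source x₀) hWo).inter hU₁o
  have hha : h a = φ x₀ := by
    show φ (ι (ψ.symm a)) = φ x₀
    rw [hsym]
  have hx₀U : x₀ ∈ U := by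
    refine ⟨⟨mem_extChartAt_source x₀, ?_⟩, ?_⟩
    · show φ x₀ ∈ W
      rw [← hha]
      exact hW
    · have h1 : q₀ ∈ ι ⁻¹' U₁ := by
        rw [hU₁]
        exact ⟨mem_extChartAt_source q₀, haV₁⟩
      exact h1
  have hφs : ContMDiffOn I 𝓘(ℝ, E) ∞ φ φ.source := by
    rw [hφ, extChartAt_source]
    exact contMDiffOn_extChartAt
  refine ⟨G ∘ φ, U, hUo, hx₀U, ?_, ?_⟩
  · exact (contMDiffOn_iff_contDiffOn.2 hG).comp (hφs.mono fun x hx => hx.1.1) fun x hx => hx.1.2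
  · intro q hq
    have h1 : q ∈ ι ⁻¹' U₁ := hq.2
    rw [hU₁] at h1
    have h2 : ψ.symm (ψ q) = q := ψ.left_inv h1.1
    have h3 : h (ψ q) = φ (ι q) := by
      show φ (ι (ψ.symm (ψ q))) = φ (ι q)
      rw [h2]
    obtain ⟨h4, h5⟩ := hG1 (ψ q) h1.2 (by rw [h3]; exact hq.1.2)
    rw [h3] at h4 h5
    refine ⟨h4, fun u => ?_⟩
    have hqs : ι q ∈ φ.source := hq.1.1
    have hφd : MDifferentiableAt I 𝓘(ℝ, E) φ (ι q) :=
      (hφs.contMDiffAt ((isOpen_extChartAt_source x₀).mem_nhds hqs)).mdifferentiableAt (by simp)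
    have hφt : φ (ι q) ∈ φ.target := φ.map_source hqs
    have hφsd : MDifferentiableAt 𝓘(ℝ, E) I φ.symm (φ (ι q)) :=
      ((contMDiffOn_extChartAt_symm (n := ∞) x₀).contMDiffAt
        ((isOpen_extChartAt_target x₀).mem_nhds hφt)).mdifferentiableAt (by simp)
    have hGd : MDifferentiableAt 𝓘(ℝ, E) 𝓘(ℝ, ℝ) G (φ (ι q)) :=
      ((hG.contDiffAt (hWo.mem_nhds hq.1.2)).differentiableAt (by simp)).mdifferentiableAt
    have h6 := mfderiv_comp (I := I) (I' := 𝓘(ℝ, E)) (I'' := 𝓘(ℝ, ℝ)) (ι q) hGd hφd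
    have h7 : dForm I (G ∘ φ) (ι q) u =
        fderiv ℝ G (φ (ι q)) (mfderiv I 𝓘(ℝ, E) φ (ι q) u) := by
      have h8 := DFunLike.congr_fun h6 u
      refine h8.trans ?_
      rw [mfderiv_eq_fderiv]
      rfl
    rw [h7, h5, chartForm_apply]
    have h9 : (φ.symm ∘ φ) =ᶠ[𝓝 (ι q)] id := by
      filter_upwards [(isOpen_extChartAt_source x₀).mem_nhds hqs] with y hy
      exact φ.left_inv hy
    have h10 := tangentMap_congr_of_eventuallyEq (J := I) (I := I)
      (v := (⟨ι q, u⟩ : TangentBundle I X)) h9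
    have h11 : tangentMap I I (φ.symm ∘ φ) (⟨ι q, u⟩ : TangentBundle I X) =
        tangentMap 𝓘(ℝ, E) I φ.symm (tangentMap I 𝓘(ℝ, E) φ ⟨ι q, u⟩) :=
      tangentMap_comp_at _ hφsd hφd
    rw [h11, tangentMap_id] at h10
    exact congrArg (fun v : TangentBundle I X => σ v.1 v.2) h10

lemma dForm_finset_sum {κ : Type*} (t : Finset κ) {c : κ → X → ℝ}
    (hc : ∀ k, ContMDiff I 𝓘(ℝ, ℝ) ∞ (c k)) (x : X) (u : TangentSpace I x) :
    ContMDiff I 𝓘(ℝ, ℝ) ∞ (fun x => ∑ k ∈ t, c k x) ∧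
      dForm I (fun x => ∑ k ∈ t, c k x) x u = ∑ k ∈ t, dForm I (c k) x u := by
  classical
  induction t using Finset.induction_on with
  | empty =>
    simp only [Finset.sum_empty]
    exact ⟨contMDiff_const, dForm_const 0 x u⟩
  | insert k t hk ih =>
    simp only [Finset.sum_insert hk]
    exact ⟨(hc k).add ih.1, by rw [dForm_add (hc k) ih.1, ih.2]⟩

/-- **A one-form vanishing on the tangent spaces of a compact submanifold is, along the
submanifold, the differential of a smooth function.** -/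
theorem exists_primitive [T2Space X] [SigmaCompactSpace X] [CompactSpace L] {ι : L → X}
    (hι : ContMDiff 𝓘(ℝ, F) I ∞ ι) (hιe : Topology.IsEmbedding ι)
    (hιimm : ∀ q, Function.Injective (mfderiv 𝓘(ℝ, F) I ι q))
    {σ : (x : X) → TangentSpace I x →L[ℝ] ℝ} (hσ : SmoothForm σ)
    (hσ0 : ∀ q (v : TangentSpace 𝓘(ℝ, F) q), σ (ι q) (mfderiv 𝓘(ℝ, F) I ι q v) = 0) :
    ∃ g : X → ℝ, ContMDiff I 𝓘(ℝ, ℝ) ∞ g ∧ ∀ q, g (ι q) = 0 ∧
      ∀ u : TangentSpace I (ι q), dForm I g (ι q) u = σ (ι q) u := by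
  classical
  choose g U hUo hqU hg hgq using fun q₀ => local_primitive hι hιe hιimm hσ hσ0 q₀
  have hc : IsCompact (range ι) := isCompact_range hι.continuous
  obtain ⟨t, ht⟩ := hc.elim_finite_subcover U hUo (by
    rintro _ ⟨q, rfl⟩
    exact mem_iUnion.2 ⟨q, hqU q⟩)
  obtain ⟨f, hf⟩ := SmoothPartitionOfUnity.exists_isSubordinate I hc.isClosed
    (fun i : t => U i) (fun i => hUo i) (by
      intro x hx
      obtain ⟨i, hi, hxi⟩ := mem_iUnion₂.1 (ht hx)
      exact mem_iUnion.2 ⟨⟨i, hi⟩, hxi⟩)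
  have hf0 : ∀ (i : t) (x : X), x ∉ tsupport (f i) → f i x = 0 := fun i x hx =>
    image_eq_zero_of_notMem_tsupport hx
  have hcs : ∀ i : t, ContMDiff I 𝓘(ℝ, ℝ) ∞ (fun x => f i x * g i x) := fun i =>
    contMDiff_cutoff_mul (isClosed_tsupport _) (hUo i) (hf i) (f i).contMDiff (hg i) (hf0 i)
  have hsum : ∀ q, ∑ i : t, f i (ι q) = 1 := by
    intro q
    have h1 := f.sum_eq_one (mem_range_self (f := ι) q)
    rwa [finsum_eq_sum_of_fintype] at h1
  refine ⟨fun x => ∑ i : t, f i x * g i x, ?_, fun q => ⟨?_, fun u => ?_⟩⟩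
  · intro x
    exact (dForm_finset_sum Finset.univ hcs x 0).1 x
  · refine Finset.sum_eq_zero fun i _ => ?_
    by_cases hi : ι q ∈ U i
    · rw [(hgq i q hi).1, mul_zero]
    · rw [hf0 i _ fun h => hi (hf i h), zero_mul]
  · rw [(dForm_finset_sum Finset.univ hcs (ι q) u).2]
    have h1 : ∀ i : t, dForm I (fun x => f i x * g i x) (ι q) u = f i (ι q) * σ (ι q) u := by
      intro i
      by_cases hi : ι q ∈ U i
      · have h2 : MDifferentiableAt I 𝓘(ℝ, ℝ) (g i) (ι q) :=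
          ((hg i).contMDiffAt ((hUo i).mem_nhds hi)).mdifferentiableAt (by simp)
        have h3 := ((f i).contMDiff.mdifferentiableAt (by simp) (x := ι q)).hasMFDerivAt.mul
          h2.hasMFDerivAt
        have h4 := DFunLike.congr_fun h3.mfderiv u
        have h5 : dForm I (fun x => f i x * g i x) (ι q) u =
            f i (ι q) * dForm I (g i) (ι q) u + g i (ι q) * dForm I (f i) (ι q) u := h4
        rw [h5, (hgq i q hi).2, (hgq i q hi).1, zero_mul, add_zero]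
      · have h2 : ι q ∉ tsupport (f i) := fun h => hi (hf i h)
        have h3 : (fun x => f i x * g i x) =ᶠ[𝓝 (ι q)] fun _ => 0 := by
          filter_upwards [(isClosed_tsupport (f i)).isOpen_compl.mem_nhds h2] with y hy
          rw [hf0 i y hy, zero_mul]
        have h4 : dForm I (fun x => f i x * g i x) (ι q) u = dForm I (fun _ => 0) (ι q) u :=
          DFunLike.congr_fun (h3.mfderiv_eq (I := I) (I' := 𝓘(ℝ, ℝ))) u
        rw [h4, dForm_const, hf0 i _ h2, zero_mul]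
    rw [Finset.sum_congr rfl fun i _ => h1 i, ← Finset.sum_mul, hsum q, one_mul]

end Pool.Agent.KS6_66.Liou
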