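import Mathlib
import Pool.Agent.KS6_66.Liou.Infin
import Pool.Agent.KS6_66.Liou.Prim

/-! Smooth cores, Lagrangian cores and cores which are single points. -/

open scoped Topology ContDiff Manifold
open Set Metric Bundle

noncomputable section

namespace Pool.Agent.KS6_66.Liou

open Pool.Agent.Helper186

set_option linter.unusedSectionVars false

universe u

variable {F : Type*} [NormedAddCommGroup F] [NormedSpace ℝ F] [FiniteDimensional ℝ F]
  {L : Type*} [TopologicalSpace L] [ChartedSpace F L] [IsManifold 𝓘(ℝ, F) ∞ L]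
  {E : Type u} [NormedAddCommGroup E] [NormedSpace ℝ E] [FiniteDimensional ℝ E]
  {H : Type*} [TopologicalSpace H] {I : ModelWithCorners ℝ E H} [I.Boundaryless]
  {X : Type*} [TopologicalSpace X] [ChartedSpace H X] [IsManifold I ∞ X]
  {E' : Type*} [NormedAddCommGroup E'] [NormedSpace ℝ E'] [FiniteDimensional ℝ E']
  {H' : Type*} [TopologicalSpace H'] {J : ModelWithCorners ℝ E' H'} [J.Boundaryless]
  {N : Type*} [TopologicalSpace N] [ChartedSpace H' N] [IsManifold J ∞ N]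

/-- **Smooth cores.** -/
theorem smooth_core_extends [T2Space X] [T2Space N] [CompactSpace L]
    {lam : (x : X) → TangentSpace I x →L[ℝ] ℝ} {β : (x : N) → TangentSpace J x →L[ℝ] ℝ}
    {Fl : ConfFlow I lam} {G : ConfFlow J β}
    {ι : L → X} {ι' : L → N} (hι : ContMDiff 𝓘(ℝ, F) I ∞ ι) (hιe : Topology.IsEmbedding ι)
    (hιimm : ∀ q, Function.Injective (mfderiv 𝓘(ℝ, F) I ι q))
    (hC : Attractor Fl (range ι)) (hC' : Attractor G (range ι')) (hlam : SmoothForm lam)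
    (hβ : SmoothForm β)
    (hnd : ∀ (x : X) (u : TangentSpace I x), (∀ v, extDer I lam x u v = 0) → u = 0)
    {A : Set X} {O : Set N} (hA : IsOpen A) (hO : IsOpen O) (hCA : range ι ⊆ A)
    {w : X → N} {w' : N → X} (hw : ContMDiffOn I J ∞ w A)
    (hw' : ContMDiffOn J I ∞ w' O)
    (hwA : MapsTo w A O) (hwO : MapsTo w' O A) (hl : ∀ x ∈ A, w' (w x) = x)
    (hr : ∀ ξ ∈ O, w (w' ξ) = ξ) (hcore : ∀ q, w (ι q) = ι' q)
    (hdform : ∀ q, ∀ u v : TangentSpace I (ι q), extDer J β (w (ι q)) (mfderiv I J w (ι q) u)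
      (mfderiv I J w (ι q) v) = extDer I lam (ι q) u v)
    {g₀ : X → ℝ} (hg₀ : ContMDiff I 𝓘(ℝ, ℝ) ∞ g₀)
    (hform : ∀ q, ∀ v : TangentSpace 𝓘(ℝ, F) q, β (ι' q) (mfderiv 𝓘(ℝ, F) J ι' q v) =
      lam (ι q) (mfderiv 𝓘(ℝ, F) I ι q v) +
        dForm I g₀ (ι q) (mfderiv 𝓘(ℝ, F) I ι q v)) :
    ∃ (Φ : Diffeomorph I J X N ∞) (f : X → ℝ), ContMDiff I 𝓘(ℝ, ℝ) ∞ f ∧
      (∀ x, PB lam β Φ 1 f x) ∧ ∀ q, Φ (ι q) = ι' q := by
  have := hC.sigmaCompact
  obtain ⟨χ, K', hχ, hK', hK'A, hχ1, hχ0⟩ := exists_cutoff I hC.compact hA hCA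
  have hχ1' : ∀ q, χ (ι q) = 1 := fun q => hχ1.self_of_nhdsSet _ (mem_range_self q)
  -- the difference of the one-forms
  set α₁ : (x : X) → TangentSpace I x →L[ℝ] ℝ := cutPull χ w β lam with hα₁
  have hα₁s : SmoothForm α₁ := smooth_cutPull hχ hK'.isClosed hA hK'A hχ0 hw hβ hlam
  set σ : (x : X) → TangentSpace I x →L[ℝ] ℝ := fun x => α₁ x + (- lam x - dForm I g₀ x) with hσ
  have hσs : SmoothForm σ := by
    refine hα₁s.add (β := fun x => - lam x - dForm I g₀ x) ?_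
    intro V
    exact ((hlam V).neg).sub (smoothForm_dForm hg₀ V)
  have hσq : ∀ q (u : TangentSpace I (ι q)), σ (ι q) u =
      β (w (ι q)) (mfderiv I J w (ι q) u) - lam (ι q) u - dForm I g₀ (ι q) u := by
    intro q u
    have h1 : σ (ι q) u = α₁ (ι q) u + (- lam (ι q) u - dForm I g₀ (ι q) u) := rfl
    rw [h1, hα₁, cutPull_apply, hχ1' q]
    ring
  have hwι : (w ∘ ι) = ι' := by ext1 q; exact hcore q
  have hσ0 : ∀ q (v : TangentSpace 𝓘(ℝ, F) q), σ (ι q) (mfderiv 𝓘(ℝ, F) I ι q v) = 0 := by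
    intro q v
    rw [hσq]
    have h1 := mfderiv_comp (I := 𝓘(ℝ, F)) (I' := I) (I'' := J) q
      ((hw.contMDiffAt (hA.mem_nhds (hCA (mem_range_self q)))).mdifferentiableAt (by simp))
      (hι.mdifferentiableAt (by simp) (x := q))
    have h2 : β (w (ι q)) (mfderiv I J w (ι q) (mfderiv 𝓘(ℝ, F) I ι q v)) =
        β (ι' q) (mfderiv 𝓘(ℝ, F) J ι' q v) := by
      have h3 : mfderiv I J w (ι q) (mfderiv 𝓘(ℝ, F) I ι q v) =
        mfderiv 𝓘(ℝ, F) J (w ∘ ι) q v := (DFunLike.congr_fun h1 v).symm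
      have h4 : β (w (ι q)) (mfderiv I J w (ι q) (mfderiv 𝓘(ℝ, F) I ι q v)) =
        β ((w ∘ ι) q) (mfderiv 𝓘(ℝ, F) J (w ∘ ι) q v) := congrArg (β (w (ι q))) h3
      rw [h4]
      have h5 : tangentMap 𝓘(ℝ, F) J (w ∘ ι) (⟨q, v⟩ : TangentBundle 𝓘(ℝ, F) L) =
        tangentMap 𝓘(ℝ, F) J ι' ⟨q, v⟩ := by rw [hwι]
      exact form_congr' β h5
    rw [h2, hform q v]
    ring
  obtain ⟨g, hg, hgq⟩ := exists_primitive hι hιe hιimm hσs hσ0
  obtain ⟨Φ, f, hf, hΦ, hΦC⟩ := infinitesimal_extends (g := fun x => g x + g₀ x) hC hC' hlam hβ hnd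
    hA hO hCA hw hw' (hg.add hg₀).contMDiffOn hwA hwO hl hr (by
      rw [← hwι, range_comp]) (by
      rintro _ ⟨q, rfl⟩ u
      have h1 := (hgq q).2 u
      rw [hσq] at h1
      have h2 : (show ℝ from mfderiv I 𝓘(ℝ, ℝ) (fun x => g x + g₀ x) (ι q) u) =
        dForm I g (ι q) u + dForm I g₀ (ι q) u := dForm_add hg hg₀ (ι q) u
      rw [h2, h1]
      ring) (by
      rintro _ ⟨q, rfl⟩ u v
      exact hdform q u v)
  exact ⟨Φ, f, hf, hΦ, fun q => (hΦC _ (mem_range_self q)).trans (hcore q)⟩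

/-! ### The symplectic vector space -/

section linear

/-- The linear Liouville form `½ Om(y, ·)` of a vector space with a bilinear form. -/
def linForm (Om : E →L[ℝ] E →L[ℝ] ℝ) (y : E) : TangentSpace 𝓘(ℝ, E) y →L[ℝ] ℝ :=
  (1 / 2 : ℝ) • Om y

lemma linForm_apply (Om : E →L[ℝ] E →L[ℝ] ℝ) (y : E) (v : E) :
    linForm Om y v = (1 / 2 : ℝ) * Om y v := rfl

lemma smooth_linForm (Om : E →L[ℝ] E →L[ℝ] ℝ) : SmoothForm (I := 𝓘(ℝ, E)) (linForm Om) := by
  have h1 : ContMDiff 𝓘(ℝ, E).tangent 𝓘(ℝ, E) ∞ (fun V : TangentBundle 𝓘(ℝ, E) E => V.1) :=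
    contMDiff_proj _
  have h2 : ContMDiff 𝓘(ℝ, E).tangent 𝓘(ℝ, E) ∞ (fun V : TangentBundle 𝓘(ℝ, E) E => V.2) :=
    contMDiff_snd_tangentBundle_modelSpace E 𝓘(ℝ, E)
  have h3 : ContMDiff 𝓘(ℝ, E).tangent 𝓘(ℝ, E →L[ℝ] ℝ) ∞
      (fun V : TangentBundle 𝓘(ℝ, E) E => (1 / 2 : ℝ) • Om V.1) := by
    have h0 : ContDiff ℝ ∞ (fun y : E => (1 / 2 : ℝ) • Om y) := Om.contDiff.const_smul (1 / 2 : ℝ)
    exact h0.contMDiff.comp h1
  exact h3.clm_apply h2

lemma extDer_linForm {Om : E →L[ℝ] E →L[ℝ] ℝ} (hOm : ∀ u v, Om u v = - Om v u) (y u v : E) :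
    extDer 𝓘(ℝ, E) (linForm Om) y u v = Om u v := by
  have h1 : chartForm 𝓘(ℝ, E) (linForm Om) y = fun z => (1 / 2 : ℝ) • Om z := by
    ext1 z
    have h2 : chartForm 𝓘(ℝ, E) (linForm Om) y z =
      ((1 / 2 : ℝ) • Om z).comp (mfderiv 𝓘(ℝ, E) 𝓘(ℝ, E) (id : E → E) z) := rfl
    rw [h2, mfderiv_id]
    rfl
  have h2 : fderiv ℝ (fun z => (1 / 2 : ℝ) • Om z) y = (1 / 2 : ℝ) • Om :=
    (Om.hasFDerivAt.const_smul (1 / 2 : ℝ)).fderiv
  unfold extDer
  rw [h1]
  have h3 : extChartAt 𝓘(ℝ, E) y y = y := rfl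
  rw [h3, h2]
  have h4 : ((1 / 2 : ℝ) • Om) u v - ((1 / 2 : ℝ) • Om) v u = (1 / 2 : ℝ) * Om u v -
    (1 / 2 : ℝ) * Om v u := rfl
  refine h4.trans ?_
  rw [hOm v u]
  ring

/-- The flow `y ↦ e ^ (t / 2) y`. -/
def linFlow (Om : E →L[ℝ] E →L[ℝ] ℝ) : ConfFlow 𝓘(ℝ, E) (linForm Om) where
  φ := fun t y => Real.exp (t / 2) • y
  smooth := by
    have h1 : ContMDiff (𝓘(ℝ, ℝ).prod 𝓘(ℝ, E)) 𝓘(ℝ, ℝ) ∞ (fun p : ℝ × E => Real.exp (p.1 / 2)) := by
      have h2 : ContDiff ℝ ∞ (fun t : ℝ => Real.exp (t / 2)) :=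
        Real.contDiff_exp.comp (contDiff_id.div_const 2)
      exact h2.contMDiff.comp contMDiff_fst
    exact h1.smul contMDiff_snd
  zero := fun x => by simp
  add := fun s t x => by
    rw [smul_smul, ← Real.exp_add]
    congr 2
    ring
  conf := fun t x u => by
    have h1 : mfderiv 𝓘(ℝ, E) 𝓘(ℝ, E) (fun y : E => Real.exp (t / 2) • y) x u =
        Real.exp (t / 2) • (show E from u) := by
      rw [mfderiv_eq_fderiv]
      have h2 : fderiv ℝ (fun y : E => Real.exp (t / 2) • y) x =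
        Real.exp (t / 2) • ContinuousLinearMap.id ℝ E :=
        ((hasFDerivAt_id x).const_smul _).fderiv
      exact DFunLike.congr_fun h2 u
    have h2 : linForm Om (Real.exp (t / 2) • x)
        (mfderiv 𝓘(ℝ, E) 𝓘(ℝ, E) (fun y : E => Real.exp (t / 2) • y) x u) =
        linForm Om (Real.exp (t / 2) • x) (Real.exp (t / 2) • (show E from u)) :=
      congrArg (fun a : E => (1 / 2 : ℝ) * Om (Real.exp (t / 2) • x) a) h1
    refine h2.trans ?_
    have h3 : linForm Om (Real.exp (t / 2) • x) (Real.exp (t / 2) • (show E from u)) =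
      (1 / 2 : ℝ) * Om (Real.exp (t / 2) • x) (Real.exp (t / 2) • (show E from u)) := rfl
    rw [h3]
    have h4 : linForm Om x u = (1 / 2 : ℝ) * Om x u := rfl
    rw [h4, map_smul, map_smul]
    have h5 : Real.exp t = Real.exp (t / 2) * Real.exp (t / 2) := by
      rw [← Real.exp_add]; congr 1; ring
    rw [h5]
    simp only [smul_apply, smul_eq_mul]
    ring

lemma attractor_linFlow (Om : E →L[ℝ] E →L[ℝ] ℝ) : Attractor (linFlow Om) ({0} : Set E) where
  compact := isCompact_singleton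
  inv := by
    rintro t _ rfl
    exact smul_zero _
  attr := by
    intro K hK U hU h0
    obtain ⟨R, hR⟩ := hK.isBounded.exists_norm_le
    obtain ⟨ε, hε, hεU⟩ := Metric.isOpen_iff.1 hU 0 (h0 rfl)
    have h1 : Filter.Tendsto (fun t : ℝ => Real.exp (-t / 2) * R) Filter.atTop (𝓝 (0 * R)) := by
      refine Filter.Tendsto.mul_const R ?_
      refine Real.tendsto_exp_atBot.comp ?_
      have h2 : (fun t : ℝ => -t / 2) = fun t : ℝ => (-1 / 2) * t := by ext t; ring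
      rw [h2]
      exact Filter.tendsto_id.const_mul_atTop_of_neg (by norm_num)
    rw [zero_mul] at h1
    obtain ⟨t₀, ht₀⟩ := Filter.eventually_atTop.1 (h1.eventually (gt_mem_nhds hε))
    refine ⟨t₀, fun t ht x hx => hεU ?_⟩
    rw [mem_ball_zero_iff]
    show ‖Real.exp (-t / 2) • x‖ < ε
    rw [norm_smul, Real.norm_eq_abs, abs_of_pos (Real.exp_pos _)]
    exact lt_of_le_of_lt (mul_le_mul_of_nonneg_left (hR x hx) (Real.exp_pos _).le) (ht₀ t ht)

end linear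

/-- **Cores which are single points.** -/
theorem point_core [T2Space X] (D : LData I X) {x₀ : X} (hx₀ : D.core = {x₀}) :
    ∃ (Φ : Diffeomorph I 𝓘(ℝ, E) X E ∞) (f : X → ℝ), ContMDiff I 𝓘(ℝ, ℝ) ∞ f ∧
      (∀ x, PB D.lam (linForm (E := E) (extDerL I D.lam x₀)) Φ 1 f x) ∧ Φ x₀ = 0 := by
  set Om : E →L[ℝ] E →L[ℝ] ℝ := extDerL I D.lam x₀ with hOm
  have hOma : ∀ u v, Om u v = - Om v u := by
    intro u v
    have h1 : Om u v = extDer I D.lam x₀ u v := rfl
    have h2 : Om v u = extDer I D.lam x₀ v u := rfl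
    rw [h1, h2]
    unfold extDer
    ring
  -- the Liouville field vanishes at the core
  have hmem : x₀ ∈ D.core := by rw [hx₀]; exact mem_singleton _
  have hφ : ∀ t, D.φ t x₀ = x₀ := by
    intro t
    have h1 := D.core_inv t hmem
    rw [hx₀] at h1
    exact h1
  have hZ : D.Z x₀ = 0 := by
    have h1 := D.dS_φ 0 x₀
    rw [D.φ0] at h1
    have h2 : dS I (fun p : ℝ × X => D.φ p.1 p.2) 0 x₀ =
        mfderiv 𝓘(ℝ, ℝ) I (fun t => D.φ t x₀) 0 (1 : ℝ) := rfl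
    have h3 : (fun t => D.φ t x₀) = fun _ => x₀ := by ext t; exact hφ t
    have h4 : (mfderiv 𝓘(ℝ, ℝ) I (fun t => D.φ t x₀) 0 (1 : ℝ) : E) = 0 := by
      rw [h3, mfderiv_const]
      rfl
    exact h1.symm.trans (h2.trans h4)
  have hlam0 : ∀ u, D.lam x₀ u = 0 := by
    intro u
    rw [← D.hZ x₀ u, hZ]
    have h1 : extDer I D.lam x₀ 0 u = Om 0 u := rfl
    rw [h1, map_zero]
    rfl
  -- the chart
  set φ := extChartAt I x₀ with hφdef
  have hφs : ContMDiffOn I 𝓘(ℝ, E) ∞ φ φ.source := by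
    rw [hφdef, extChartAt_source]
    exact contMDiffOn_extChartAt
  have hψs : ContMDiffOn 𝓘(ℝ, E) I ∞ φ.symm φ.target := contMDiffOn_extChartAt_symm x₀
  set c := φ x₀ with hc
  have hO : IsOpen ((fun y : E => y + c) ⁻¹' φ.target) :=
    (isOpen_extChartAt_target x₀).preimage (continuous_id.add continuous_const)
  have hd : ∀ u : TangentSpace I x₀, mfderiv I 𝓘(ℝ, E) (fun x => φ x - c) x₀ u = u := by
    intro u
    have h1 : MDifferentiableAt I 𝓘(ℝ, E) φ x₀ :=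
      (contMDiffAt_extChartAt (n := ∞)).mdifferentiableAt (by simp)
    have h2 := h1.hasMFDerivAt.sub (hasMFDerivAt_const c x₀)
    have h3 := DFunLike.congr_fun h2.mfderiv u
    have h4 : mfderiv I 𝓘(ℝ, E) φ x₀ u = u := mfderiv_extChartAt_self x₀ u
    refine h3.trans ?_
    refine Eq.trans ?_ h4
    exact sub_zero _
  have hw0 : φ x₀ - c = 0 := sub_self _
  obtain ⟨Φ, f, hf, hΦ, hΦC⟩ := infinitesimal_extends (w := fun x => φ x - c)
    (w' := fun y => φ.symm (y + c)) (g := fun _ => 0) (A := φ.source)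
    (O := (fun y : E => y + c) ⁻¹' φ.target) (attractor_core D)
    (attractor_linFlow Om) D.hlam (smooth_linForm Om) D.hnd (isOpen_extChartAt_source x₀) hO
    (by rw [hx₀, singleton_subset_iff]; exact mem_extChartAt_source x₀)
    (hφs.sub contMDiffOn_const)
    (hψs.comp (contMDiff_id.add contMDiff_const).contMDiffOn fun y hy => hy)
    contMDiffOn_const
    (fun x hx => by
      show φ x - c + c ∈ φ.target
      rw [sub_add_cancel]
      exact φ.map_source hx)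
    (fun y hy => φ.map_target hy)
    (fun x hx => by
      show φ.symm (φ x - c + c) = x
      rw [sub_add_cancel]
      exact φ.left_inv hx)
    (fun y hy => by
      show φ (φ.symm (y + c)) - c = y
      rw [φ.right_inv hy, add_sub_cancel_right])
    (by rw [hx₀, image_singleton, hw0])
    (by
      rw [hx₀]
      intro x hx u
      obtain rfl : x₀ = x := (mem_singleton_iff.1 hx).symm
      have h1 : mfderiv I 𝓘(ℝ, ℝ) (fun _ : X => (0:ℝ)) x₀ = 0 := mfderiv_const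
      have h2 : (show ℝ from mfderiv I 𝓘(ℝ, ℝ) (fun _ : X => (0:ℝ)) x₀ u) = 0 :=
        DFunLike.congr_fun h1 u
      rw [h2, hlam0 u]
      have h3 : ∀ (y : E), y = 0 → ∀ v : E, linForm Om y v = 0 := by
        rintro y rfl v
        rw [linForm_apply, map_zero]
        simp
      rw [mul_zero, add_zero]
      exact h3 _ hw0 _)
    (by
      rw [hx₀]
      intro x hx u v
      obtain rfl : x₀ = x := (mem_singleton_iff.1 hx).symm
      have h1 : extDer 𝓘(ℝ, E) (linForm Om) (φ x₀ - c) (mfderiv I 𝓘(ℝ, E) (fun x => φ x - c) x₀ u)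
        (mfderiv I 𝓘(ℝ, E) (fun x => φ x - c) x₀ v) =
        Om (mfderiv I 𝓘(ℝ, E) (fun x => φ x - c) x₀ u)
          (mfderiv I 𝓘(ℝ, E) (fun x => φ x - c) x₀ v) := extDer_linForm hOma _ _ _
      rw [h1, hd u, hd v]
      rfl)
  refine ⟨Φ, f, hf, hΦ, ?_⟩
  exact (hΦC x₀ hmem).trans hw0

end Pool.Agent.KS6_66.Liou
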