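import Mathlib
import Pool.Agent.KS6_66.Liou.Final

/-! Lagrangian cores: equivalences which are the identity on the core. -/

open scoped Topology ContDiff Manifold
open Set Metric Bundle

noncomputable section

namespace Pool.Agent.KS6_66.Liou

open Pool.Agent.Helper186

set_option linter.unusedSectionVars false

universe u

variable {F : Type*} [NormedAddCommGroup F] [NormedSpace ℝ F] [FiniteDimensional ℝ F]
  {L : Type*} [TopologicalSpace L] [ChartedSpace F L] [IsManifold 𝓘(ℝ, F) ∞ L]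
  {E : Type u} [NormedAddCommGroup E] [NormedSpace ℝ E] [FiniteDimensional ℝ E]
  {H : Type*} [TopologicalSpace H] {I : ModelWithCorners ℝ E H} [I.Boundaryless]
  {X : Type*} [TopologicalSpace X] [ChartedSpace H X] [IsManifold I ∞ X]
  {E' : Type*} [NormedAddCommGroup E'] [NormedSpace ℝ E'] [FiniteDimensional ℝ E']
  {H' : Type*} [TopologicalSpace H'] {J : ModelWithCorners ℝ E' H'} [J.Boundaryless]
  {N : Type*} [TopologicalSpace N] [ChartedSpace H' N] [IsManifold J ∞ N]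

/-- Extension of germs into the cotangent bundle. -/
theorem germ_extends_cot [T2Space X] [CompactSpace L] [T2Space L] (D : LData I X)
    {A : Set X} {O : Set (Cotangent F L)} (hA : IsOpen A) (hO : IsOpen O) (hCA : D.core ⊆ A)
    {w : X → Cotangent F L} {w' : Cotangent F L → X} {g : X → ℝ}
    (hw : ContMDiffOn I (IC F) ∞ w A)
    (hw' : ContMDiffOn (IC F) I ∞ w' O) (hg : ContMDiffOn I 𝓘(ℝ, ℝ) ∞ g A)
    (hwA : MapsTo w A O) (hwO : MapsTo w' O A) (hl : ∀ x ∈ A, w' (w x) = x)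
    (hr : ∀ ξ ∈ O, w (w' ξ) = ξ) (hcore : w '' D.core = range (zeroC : L → Cotangent F L))
    (hform : ∀ x ∈ A, PB D.lam canForm w 1 g x) :
    ∃ (Φ : Diffeomorph I (IC F) X (Cotangent F L) ∞) (f : X → ℝ), ContMDiff I 𝓘(ℝ, ℝ) ∞ f ∧
      (∀ x, PB D.lam canForm Φ 1 f x) ∧ ∀ᶠ x in 𝓝ˢ D.core, Φ x = w x ∧ f x = g x :=
  germ_extends (attractor_core D) attractor_zero D.hlam D.hnd hA hO hCA hw hw' hg hwA hwO hl hr
    hcore hform

/-- **Lagrangian cores**, relative version. -/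
theorem lagrangian_core [T2Space X] [CompactSpace L] [T2Space L] (D : LData I X)
    {ι : L → X} (hι : ContMDiff 𝓘(ℝ, F) I ∞ ι) (hιe : Topology.IsEmbedding ι)
    (hιimm : ∀ q, Function.Injective (mfderiv 𝓘(ℝ, F) I ι q)) (hcore : range ι = D.core)
    (hlag : ∀ q (u v : TangentSpace 𝓘(ℝ, F) q),
      extDer I D.lam (ι q) (mfderiv 𝓘(ℝ, F) I ι q u) (mfderiv 𝓘(ℝ, F) I ι q v) = 0)
    (hdim : Module.finrank ℝ E = 2 * Module.finrank ℝ F) :
    ∃ (Φ : Diffeomorph I (IC F) X (Cotangent F L) ∞) (f : X → ℝ), ContMDiff I 𝓘(ℝ, ℝ) ∞ f ∧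
      (∀ x, PB D.lam canForm Φ 1 f x) ∧ ∀ q, Φ (ι q) = zeroC q ∧ f (ι q) = 0 := by
  rcases isEmpty_or_nonempty L with hL | hL
  · obtain ⟨Φ, f, hf, hΦ⟩ := D.main hι hιe hιimm hcore hlag hdim
    exact ⟨Φ, f, hf, hΦ, fun q => (hL.false q).elim⟩
  have := D.sigmaCompact
  have hlam0 := D.lam_core hι hιe hιimm hcore hlag
  obtain ⟨w, w', O, g, hO, h0O, hwO, hw, hw's, hw'w, hw0, hg, hpb⟩ :=
    weinstein D.hlam D.hnd hι hιe.injective hιimm hlam0 hdim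
  have hmaps : MapsTo w' (w '' O) O := by
    rintro _ ⟨ξ, hξ, rfl⟩
    rw [hw'w ξ hξ]
    exact hξ
  have hw'ι : ∀ q, w' (ι q) = zeroC q := by
    intro q
    rw [← hw0 q]
    exact hw'w _ (h0O q)
  obtain ⟨Φ, f, hf, hΦ, hΦC⟩ := germ_extends_cot (L := L) (F := F) D (w := w') (w' := w)
    (g := fun x => - g x) hwO hO
    (by
      rw [← hcore]
      rintro _ ⟨q, rfl⟩
      exact ⟨zeroC q, h0O q, hw0 q⟩) hw's hw.contMDiffOn hg.neg hmaps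
    (fun ξ hξ => ⟨ξ, hξ, rfl⟩)
    (by
      rintro _ ⟨ξ, hξ, rfl⟩
      rw [hw'w ξ hξ]) hw'w
    (by
      rw [← hcore]
      ext ξ
      constructor
      · rintro ⟨_, ⟨q, rfl⟩, rfl⟩
        exact ⟨q, (hw'ι q).symm⟩
      · rintro ⟨q, rfl⟩
        exact ⟨ι q, mem_range_self q, hw'ι q⟩) hpb
  have hΦι : ∀ q, Φ (ι q) = zeroC q := by
    intro q
    have hq : ι q ∈ D.core := hcore ▸ mem_range_self q
    exact ((hΦC.self_of_nhdsSet _ hq).1).trans (hw'ι q)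
  -- normalisation of the primitive
  have hfι : ContMDiff 𝓘(ℝ, F) 𝓘(ℝ, ℝ) ∞ (f ∘ ι) := hf.comp hι
  have hfι0 : ∀ (q : L) (v : TangentSpace 𝓘(ℝ, F) q), dForm 𝓘(ℝ, F) (f ∘ ι) q v = 0 := by
    intro q v
    have h1 := hΦ (ι q) (mfderiv 𝓘(ℝ, F) I ι q v)
    have h2 : ∀ (ξ : Cotangent F L), ξ = zeroC q → ∀ a : TangentSpace (IC F) ξ,
        canForm ξ a = 0 := by
      rintro ξ rfl a
      exact canForm_zeroC q a
    rw [h2 _ (hΦι q), hlam0 q v, mul_zero, zero_add] at h1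
    have h3 := mfderiv_comp (I := 𝓘(ℝ, F)) (I' := I) (I'' := 𝓘(ℝ, ℝ)) q
      (hf.mdifferentiableAt (by simp) (x := ι q)) (hι.mdifferentiableAt (by simp) (x := q))
    exact (DFunLike.congr_fun h3 v).trans h1.symm
  set pr : Cotangent F L → L := TotalSpace.proj with hpr
  have hprs : ContMDiff (IC F) 𝓘(ℝ, F) ∞ pr := contMDiff_projC
  have hprΦ : ContMDiff I 𝓘(ℝ, F) ∞ (pr ∘ Φ) := hprs.comp Φ.contMDiff
  set c : X → ℝ := (f ∘ ι) ∘ (pr ∘ Φ) with hc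
  have hcs : ContMDiff I 𝓘(ℝ, ℝ) ∞ c := hfι.comp hprΦ
  have hc0 : ∀ (x : X) (u : TangentSpace I x), dForm I c x u = 0 := by
    intro x u
    have h3 := mfderiv_comp (I := I) (I' := 𝓘(ℝ, F)) (I'' := 𝓘(ℝ, ℝ)) x
      (hfι.mdifferentiableAt (by simp) (x := (pr ∘ Φ) x)) (hprΦ.mdifferentiableAt (by simp) (x := x))
    exact (DFunLike.congr_fun h3 u).trans (hfι0 _ _)
  refine ⟨Φ, fun x => f x + - c x, hf.add hcs.neg, ?_, fun q => ⟨hΦι q, ?_⟩⟩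
  · intro x u
    rw [hΦ x u]
    have h1 : (show ℝ from mfderiv I 𝓘(ℝ, ℝ) (fun x => f x + - c x) x u) =
        dForm I f x u + dForm I (fun x => - c x) x u := dForm_add hf hcs.neg x u
    rw [h1, dForm_neg hcs, hc0, neg_zero, add_zero]
    rfl
  · have h1 : c (ι q) = f (ι q) := by
      show f (ι (pr (Φ (ι q)))) = f (ι q)
      rw [hΦι q]
      rfl
    show f (ι q) + - c (ι q) = 0
    rw [h1, add_neg_cancel]

/-- **Two Liouville manifolds with the same Lagrangian core.** -/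
theorem lagrangian_cores [T2Space X] [T2Space N] [CompactSpace L] [T2Space L] (D : LData I X)
    (D' : LData J N)
    {ι : L → X} (hι : ContMDiff 𝓘(ℝ, F) I ∞ ι) (hιe : Topology.IsEmbedding ι)
    (hιimm : ∀ q, Function.Injective (mfderiv 𝓘(ℝ, F) I ι q)) (hcore : range ι = D.core)
    (hlag : ∀ q (u v : TangentSpace 𝓘(ℝ, F) q),
      extDer I D.lam (ι q) (mfderiv 𝓘(ℝ, F) I ι q u) (mfderiv 𝓘(ℝ, F) I ι q v) = 0)
    (hdim : Module.finrank ℝ E = 2 * Module.finrank ℝ F)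
    {ι' : L → N} (hι' : ContMDiff 𝓘(ℝ, F) J ∞ ι') (hιe' : Topology.IsEmbedding ι')
    (hιimm' : ∀ q, Function.Injective (mfderiv 𝓘(ℝ, F) J ι' q)) (hcore' : range ι' = D'.core)
    (hlag' : ∀ q (u v : TangentSpace 𝓘(ℝ, F) q),
      extDer J D'.lam (ι' q) (mfderiv 𝓘(ℝ, F) J ι' q u) (mfderiv 𝓘(ℝ, F) J ι' q v) = 0)
    (hdim' : Module.finrank ℝ E' = 2 * Module.finrank ℝ F) :
    ∃ (Φ : Diffeomorph I J X N ∞) (f : X → ℝ), ContMDiff I 𝓘(ℝ, ℝ) ∞ f ∧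
      (∀ x, PB D.lam D'.lam Φ 1 f x) ∧ ∀ q, Φ (ι q) = ι' q ∧ f (ι q) = 0 := by
  obtain ⟨Φ₁, f₁, hf₁, hΦ₁, hq₁⟩ := lagrangian_core D hι hιe hιimm hcore hlag hdim
  obtain ⟨Φ₂, f₂, hf₂, hΦ₂, hq₂⟩ := lagrangian_core D' hι' hιe' hιimm' hcore' hlag' hdim'
  set g : N → ℝ := fun y => - f₂ y with hg
  have hgs : ContMDiff J 𝓘(ℝ, ℝ) ∞ g := hf₂.neg
  have hinv : ∀ ξ, PB canForm D'.lam Φ₂.symm 1 (fun ζ => g (Φ₂.symm ζ)) ξ := by
    intro ξ
    refine PB.inv (w' := Φ₂) ?_ (Filter.Eventually.of_forall fun ζ => Φ₂.apply_symm_apply ζ)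
      (Φ₂.symm.contMDiff.mdifferentiableAt (by simp)) (Φ₂.contMDiff.mdifferentiableAt (by simp))
      (hgs.mdifferentiableAt (by simp))
    exact (hΦ₂ _).congr (Filter.Eventually.of_forall fun y => rfl)
      (Filter.Eventually.of_forall fun y => neg_neg _)
  refine ⟨Φ₁.trans Φ₂.symm, fun x => 1 * f₁ x + g (Φ₂.symm (Φ₁ x)), ?_, ?_, ?_⟩
  · exact (contMDiff_const.mul hf₁).add (hgs.comp (Φ₂.symm.contMDiff.comp Φ₁.contMDiff))
  · intro x
    have h1 := PB.comp (hinv (Φ₁ x)) (hΦ₁ x) (Φ₁.contMDiff.mdifferentiableAt (by simp))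
      (Φ₂.symm.contMDiff.mdifferentiableAt (by simp)) (hf₁.mdifferentiableAt (by simp))
      ((hgs.comp Φ₂.symm.contMDiff).mdifferentiableAt (by simp))
    rw [one_mul] at h1
    exact h1
  · intro q
    have h1 : (Φ₁.trans Φ₂.symm) (ι q) = ι' q := by
      show Φ₂.symm (Φ₁ (ι q)) = ι' q
      rw [(hq₁ q).1, ← (hq₂ q).1]
      exact Φ₂.symm_apply_apply _
    refine ⟨h1, ?_⟩
    have h2 : Φ₂.symm (Φ₁ (ι q)) = ι' q := h1
    show 1 * f₁ (ι q) + - f₂ (Φ₂.symm (Φ₁ (ι q))) = 0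
    rw [h2, (hq₁ q).2, (hq₂ q).2]
    simp

/-- Isotropic cores. -/
theorem isotropic_core_extends [T2Space X] [T2Space N] [CompactSpace L]
    (D : LData I X) (D' : LData J N)
    {ι : L → X} {ι' : L → N} (hι : ContMDiff 𝓘(ℝ, F) I ∞ ι) (hιe : Topology.IsEmbedding ι)
    (hιimm : ∀ q, Function.Injective (mfderiv 𝓘(ℝ, F) I ι q)) (hcore : range ι = D.core)
    (hiso : ∀ q (u v : TangentSpace 𝓘(ℝ, F) q),
      extDer I D.lam (ι q) (mfderiv 𝓘(ℝ, F) I ι q u) (mfderiv 𝓘(ℝ, F) I ι q v) = 0)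
    (hι' : ContMDiff 𝓘(ℝ, F) J ∞ ι') (hιe' : Topology.IsEmbedding ι')
    (hιimm' : ∀ q, Function.Injective (mfderiv 𝓘(ℝ, F) J ι' q)) (hcore' : range ι' = D'.core)
    {A : Set X} {O : Set N} (hA : IsOpen A) (hO : IsOpen O) (hCA : D.core ⊆ A)
    {w : X → N} {w' : N → X} (hw : ContMDiffOn I J ∞ w A)
    (hw' : ContMDiffOn J I ∞ w' O)
    (hwA : MapsTo w A O) (hwO : MapsTo w' O A) (hl : ∀ x ∈ A, w' (w x) = x)
    (hr : ∀ ξ ∈ O, w (w' ξ) = ξ) (hwι : ∀ q, w (ι q) = ι' q)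
    (hdform : ∀ q, ∀ u v : TangentSpace I (ι q), extDer J D'.lam (w (ι q))
      (mfderiv I J w (ι q) u) (mfderiv I J w (ι q) v) = extDer I D.lam (ι q) u v) :
    ∃ (Φ : Diffeomorph I J X N ∞) (f : X → ℝ), ContMDiff I 𝓘(ℝ, ℝ) ∞ f ∧
      (∀ x, PB D.lam D'.lam Φ 1 f x) ∧ ∀ q, Φ (ι q) = ι' q := by
  have hCA' : range ι ⊆ A := hcore ▸ hCA
  have hwι' : (w ∘ ι) = ι' := by ext1 q; exact hwι q
  have hiso' : ∀ q (u v : TangentSpace 𝓘(ℝ, F) q),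
      extDer J D'.lam (ι' q) (mfderiv 𝓘(ℝ, F) J ι' q u) (mfderiv 𝓘(ℝ, F) J ι' q v) = 0 := by
    intro q u v
    have h1 := mfderiv_comp (I := 𝓘(ℝ, F)) (I' := I) (I'' := J) q
      ((hw.contMDiffAt (hA.mem_nhds (hCA' (mem_range_self q)))).mdifferentiableAt (by simp))
      (hι.mdifferentiableAt (by simp) (x := q))
    have h2 := hdform q (mfderiv 𝓘(ℝ, F) I ι q u) (mfderiv 𝓘(ℝ, F) I ι q v)
    rw [hiso q u v] at h2
    have h3 : ∀ (j : L → N), j = ι' → ∀ u v : TangentSpace 𝓘(ℝ, F) q,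
        extDer J D'.lam (j q) (mfderiv 𝓘(ℝ, F) J j q u) (mfderiv 𝓘(ℝ, F) J j q v) =
        extDer J D'.lam (ι' q) (mfderiv 𝓘(ℝ, F) J ι' q u) (mfderiv 𝓘(ℝ, F) J ι' q v) := by
      rintro j rfl u v; rfl
    rw [← h3 _ hwι' u v]
    refine Eq.trans ?_ h2
    have h4 : mfderiv 𝓘(ℝ, F) J (w ∘ ι) q u = mfderiv I J w (ι q) (mfderiv 𝓘(ℝ, F) I ι q u) :=
      DFunLike.congr_fun h1 u
    have h5 : mfderiv 𝓘(ℝ, F) J (w ∘ ι) q v = mfderiv I J w (ι q) (mfderiv 𝓘(ℝ, F) I ι q v) :=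
      DFunLike.congr_fun h1 v
    rw [h4, h5]
    rfl
  refine smooth_core_extends hι hιe hιimm (hcore ▸ attractor_core D) (hcore' ▸ attractor_core D')
    D.hlam D'.hlam D.hnd hA hO hCA' hw hw' hwA hwO hl hr hwι hdform (g₀ := fun _ => 0)
    contMDiff_const ?_
  intro q v
  rw [D.lam_core hι hιe hιimm hcore hiso q v, D'.lam_core hι' hιe' hιimm' hcore' hiso' q v,
    dForm_const, add_zero]

end Pool.Agent.KS6_66.Liou
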